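import Pool.Agent.H719R3.BK.Plateau
import Pool.Agent.H719R2.PIR.Germs

/-!
# Chains over a field extension have constant ratios
-/

open Finset

namespace Pool.Agent.H719R3.BK

variable {K : Type*} [Field K] {φ : ℂ →+* K} {N : ℕ} {a : ℂ} {b : ℕ → ℂ} {a' : ℂ} {b' : ℕ → ℂ}
  {n : ℕ} {t : ℤ → K}

theorem chain_ratio (hN : 2 ≤ N) (ha : a ≠ 0) (ha' : a' ≠ 0)
    (hb : b N ≠ 0) (hb' : b' N ≠ 0) (H : Chain φ N a b a' b' n t) (j : ℤ) :
    ∃ c : ℂ, t j = φ c * t 0 := by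
  by_contra hcon
  push Not at hcon
  have hne0 := H.ne 0
  have hX : ∀ c, t j / t 0 ≠ φ c := by
    intro c hc
    apply hcon c
    rw [← hc, div_mul_cancel₀ _ hne0]
  obtain ⟨V, hφ, hV⟩ := Pool.Agent.H719R2.PIR.exists_place φ hX 0
  rw [map_zero, sub_zero, map_div₀] at hV
  have hpos : 0 < V.valuation (t 0) := zero_lt_iff.2 ((Valuation.ne_zero_iff _).2 hne0)
  have hlt : V.valuation (t j) < V.valuation (t 0) := (div_lt_one₀ hpos).1 hV
  by_cases h1 : V.valuation (t 0) = 1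
  · have h2 : V.valuation (t j) ≠ 1 := by rw [← h1]; exact hlt.ne
    exact hlt.ne (plateau hφ hN ha ha' hb hb' H h2 j 0)
  · exact hlt.ne (plateau hφ hN ha ha' hb hb' H h1 j 0)

lemma GG_map (φ : ℂ →+* K) (N : ℕ) (c : ℂ) : GG N (φ c) = φ (GG N c) := by
  unfold GG
  rw [map_sum]
  exact sum_congr rfl fun i _ => (map_pow φ c i).symm

theorem chain_const (hN : 2 ≤ N) (ha : a ≠ 0) (ha' : a' ≠ 0)
    (hb : b N ≠ 0) (hb' : b' N ≠ 0) (H : Chain φ N a b a' b' n t) (ht : ∀ c, t 0 ≠ φ c)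
    {l : ℤ → ℂ} (hl : ∀ j, t j = φ (l j) * t 0) (j : ℤ) :
    GG N (l j / l (j - 1)) * GG N (l j / l (j + 1)) = (N : ℂ) ^ 2 := by
  have hne0 := H.ne 0
  have hl0 : ∀ j, l j ≠ 0 := by
    intro j h
    have := H.ne j
    rw [hl j, h, map_zero, zero_mul] at this
    exact this rfl
  obtain ⟨V, hφ, hV⟩ := Pool.Agent.H719R2.PIR.exists_place φ ht 0
  rw [map_zero, sub_zero] at hV
  have hpos : 0 < V.valuation (t 0) := zero_lt_iff.2 ((Valuation.ne_zero_iff _).2 hne0)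
  have hval : ∀ i, V.valuation (t i) = V.valuation (t 0) := by
    intro i
    rw [hl i, map_mul, hφ _ (hl0 i), one_mul]
  have hgt : 1 < V.valuation ((t j)⁻¹) := by
    rw [map_inv₀, hval j]
    exact (one_lt_inv₀ hpos).2 hV
  have hB : ∀ i, V.valuation ((t i)⁻¹) ≤ V.valuation ((t j)⁻¹) ∧
      (V.valuation ((t i)⁻¹))⁻¹ ≤ V.valuation ((t j)⁻¹) := by
    intro i
    rw [map_inv₀, map_inv₀, inv_inv, hval i, hval j]
    exact ⟨le_rfl, hV.le.trans ((one_lt_inv₀ hpos).2 hV).le⟩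
  have key := max_law hφ hN ha' ha hb' hb H.inv (j := j) hgt hB
  have e : ∀ i, (t i)⁻¹ / (t j)⁻¹ = φ (l j / l i) := by
    intro i
    rw [hl i, hl j, map_div₀]
    have h1 : φ (l i) ≠ 0 := (map_ne_zero φ).2 (hl0 i)
    have h2 : φ (l j) ≠ 0 := (map_ne_zero φ).2 (hl0 j)
    field_simp
  rw [e, e, GG_map, GG_map, ← map_mul, ← map_sub] at key
  by_contra hcon
  have h3 := hφ _ (sub_ne_zero.2 hcon)
  rw [h3] at key
  exact lt_irrefl _ key

end Pool.Agent.H719R3.BK
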