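import Pool.Agent.H719R3.BK.Poly
import Pool.Agent.H719R3.BG.Inf

/-!
# Tables whose boundary is parametrised by a regular curve on the unit circle
-/

open scoped ComplexConjugate
open Complex Finset

namespace Pool.Agent.H719R3.BK

open Pool.Agent.H719R3.BG

/-- A regular parametrisation of the boundary by the unit circle: `R` is differentiable with
nonzero derivative there. -/
structure CircleParam (Ω : Set ℂ) (R R' : ℂ → ℂ) : Prop where
  front : frontier Ω = R '' Metric.sphere 0 1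
  deriv : ∀ z : ℂ, ‖z‖ = 1 → HasDerivAt R (R' z) z
  ne : ∀ z : ℂ, ‖z‖ = 1 → R' z ≠ 0

variable {Ω : Set ℂ} {R R' : ℂ → ℂ}

lemma cr_sub (w v v' : ℂ) : cr w (v - v') = cr w v - cr w v' := by
  unfold cr; rw [mul_sub, Complex.sub_im]

lemma cr_add (w v v' : ℂ) : cr w (v + v') = cr w v + cr w v' := by
  unfold cr; rw [mul_add, Complex.add_im]

lemma cr_cont (w : ℂ) : Continuous (cr w) := by
  unfold cr
  exact Complex.continuous_im.comp (continuous_const.mul continuous_id)

lemma par_of_cr {u v : ℂ} (hu : u ≠ 0) (h : cr u v = 0) : ∃ c : ℝ, v = c * u := by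
  refine ⟨(v / u).re, ?_⟩
  have h1 : (v / u).im = 0 := by
    unfold cr at h
    have h2 : v / u = (conj u * v) / (normSq u : ℂ) := by
      rw [Complex.normSq_eq_conj_mul_self]
      have : conj u ≠ 0 := by rw [Ne, map_eq_zero]; exact hu
      field_simp
    rw [h2, Complex.div_ofReal_im, h, zero_div]
  have h2 : v / u = ((v / u).re : ℂ) := by
    apply Complex.ext
    · simp
    · rw [h1]; simp
  rw [← h2]
  field_simp

lemma cr_mul_ofReal (w v : ℂ) (c : ℝ) : cr w (c * v) = c * cr w v := by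
  unfold cr
  simp only [Complex.mul_im, Complex.mul_re, Complex.ofReal_re, Complex.ofReal_im, Complex.conj_re,
    Complex.conj_im]
  ring

lemma cr_mul_ofReal' (w v : ℂ) (c : ℝ) : cr (c * w) v = c * cr w v := by
  unfold cr
  simp only [map_mul, Complex.conj_ofReal, Complex.mul_im, Complex.mul_re, Complex.ofReal_re,
    Complex.ofReal_im, Complex.conj_re, Complex.conj_im]
  ring

/-- Tangent directions are parallel to the velocity. -/
lemma cr_velocity (hΩ : IsOpen Ω) (hc : Convex ℝ Ω) (hp : CircleParam Ω R R') {z u : ℂ}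
    (hz : ‖z‖ = 1) (hu : Tangent Ω (R z) u) : cr u (I * z * R' z) = 0 := by
  -- constant sign
  have hsign : (∀ y ∈ Ω, 0 < cr u (y - R z)) ∨ (∀ y ∈ Ω, cr u (y - R z) < 0) := by
    by_contra hcon
    push Not at hcon
    obtain ⟨⟨y, hy, hy1⟩, ⟨y', hy', hy1'⟩⟩ := hcon
    have hcont : ContinuousOn (fun y => cr u (y - R z)) Ω :=
      ((cr_cont u).comp (continuous_id.sub continuous_const)).continuousOn
    have := hc.isPreconnected.intermediate_value hy hy' hcont ⟨hy1, hy1'⟩
    obtain ⟨v, hv, hv0⟩ := this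
    exact hu.2 v hv hv0
  set θ₀ := Complex.arg z with hθ₀
  have hz0 : z = Complex.exp (θ₀ * I) := by
    have := Complex.norm_mul_exp_arg_mul_I z
    rw [hz] at this
    simpa using this.symm
  have hexp : HasDerivAt (fun θ : ℝ => Complex.exp (θ * I)) (I * z) θ₀ := by
    have h1 : HasDerivAt (fun θ : ℝ => (θ : ℂ) * I) I θ₀ := by
      simpa using (Complex.ofRealCLM.hasDerivAt (x := θ₀)).mul_const I
    have h2 := h1.cexp
    rw [← hz0] at h2
    rwa [mul_comm] at h2
  have hγ : HasDerivAt (fun θ : ℝ => R (Complex.exp (θ * I))) (I * z * R' z) θ₀ := by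
    have h1 : HasDerivAt R (R' z) (Complex.exp (θ₀ * I)) := by rw [← hz0]; exact hp.deriv z hz
    have h2 := h1.comp_of_eq θ₀ hexp rfl
    rwa [mul_comm] at h2
  have hg : HasDerivAt (fun θ : ℝ => cr u (R (Complex.exp (θ * I)) - R z)) (cr u (I * z * R' z))
      θ₀ := by
    have h1 := (hγ.sub_const (R z)).const_mul (conj u)
    have h2 := Complex.imCLM.hasFDerivAt.comp_hasDerivAt θ₀ h1
    exact h2
  have hval : cr u (R (Complex.exp (θ₀ * I)) - R z) = 0 := by
    rw [← hz0, sub_self]; unfold cr; simp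
  have hcl : ∀ θ : ℝ, R (Complex.exp (θ * I)) ∈ closure Ω := by
    intro θ
    apply frontier_subset_closure
    rw [hp.front]
    exact ⟨_, by rw [mem_sphere_zero_iff_norm, Complex.norm_exp_ofReal_mul_I], rfl⟩
  have hcl' : ∀ {s : Set ℂ}, IsClosed s → Ω ⊆ s → ∀ y ∈ closure Ω, y ∈ s :=
    fun hs h y hy => closure_minimal h hs hy
  rcases hsign with h | h
  · have hmin : IsLocalMin (fun θ : ℝ => cr u (R (Complex.exp (θ * I)) - R z)) θ₀ := by
      refine Filter.Eventually.of_forall fun θ => ?_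
      simp only
      rw [hval]
      have hs : IsClosed {y : ℂ | 0 ≤ cr u (y - R z)} :=
        isClosed_le continuous_const ((cr_cont u).comp (continuous_id.sub continuous_const))
      exact hcl' hs (fun y hy => (h y hy).le) _ (hcl θ)
    exact hmin.hasDerivAt_eq_zero hg
  · have hmax : IsLocalMax (fun θ : ℝ => cr u (R (Complex.exp (θ * I)) - R z)) θ₀ := by
      refine Filter.Eventually.of_forall fun θ => ?_
      simp only
      rw [hval]
      have hs : IsClosed {y : ℂ | cr u (y - R z) ≤ 0} :=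
        isClosed_le ((cr_cont u).comp (continuous_id.sub continuous_const)) continuous_const
      exact hcl' hs (fun y hy => (h y hy).le) _ (hcl θ)
    exact hmax.hasDerivAt_eq_zero hg

lemma velocity_ne (hp : CircleParam Ω R R') {z : ℂ} (hz : ‖z‖ = 1) : I * z * R' z ≠ 0 := by
  have hz0 : z ≠ 0 := by rintro rfl; simp at hz
  exact mul_ne_zero (mul_ne_zero I_ne_zero hz0) (hp.ne z hz)

/-- Such domains are tables. -/
lemma table_of_param (hΩ : IsOpen Ω) (hc : Convex ℝ Ω) (hb : Bornology.IsBounded Ω)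
    (hne : Ω.Nonempty) (hs : StrictConvex ℝ (closure Ω)) (hp : CircleParam Ω R R') : Table Ω where
  isOpen := hΩ
  convex := hc
  bounded := hb
  nonempty := hne
  strict := hs
  smooth := by
    intro p hpf u v hu hv
    rw [hp.front] at hpf
    obtain ⟨z, hz, rfl⟩ := hpf
    rw [mem_sphere_zero_iff_norm] at hz
    obtain ⟨c, hc1⟩ := par_of_cr hu.1 (cr_velocity hΩ hc hp hz hu)
    obtain ⟨d, hd1⟩ := par_of_cr hv.1 (cr_velocity hΩ hc hp hz hv)
    have hvel := velocity_ne hp hz
    have hc0 : c ≠ 0 := by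
      rintro rfl
      rw [hc1] at hvel
      simp at hvel
    have hd0 : d ≠ 0 := by
      rintro rfl
      rw [hd1] at hvel
      simp at hvel
    have h1 : cr (c * u) (d * v) = 0 := by
      rw [← hc1, ← hd1]
      unfold cr
      rw [← Complex.normSq_eq_conj_mul_self]
      simp
    rw [cr_mul_ofReal, cr_mul_ofReal'] at h1
    rcases mul_eq_zero.1 h1 with h2 | h2
    · exact absurd h2 hd0
    · rcases mul_eq_zero.1 h2 with h3 | h3
      · exact absurd h3 hc0
      · exact h3

/-- The velocity is a tangent direction. -/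
lemma tangent_velocity (hT : Table Ω) (hp : CircleParam Ω R R') {z : ℂ} (hz : ‖z‖ = 1) :
    Tangent Ω (R z) (I * z * R' z) := by
  have hf : R z ∈ frontier Ω := by
    rw [hp.front]; exact ⟨z, by rw [mem_sphere_zero_iff_norm]; exact hz, rfl⟩
  obtain ⟨u, hu1, hu2, -⟩ := (segFacts hT).tan _ hf
  have hu0 : u ≠ 0 := by
    rintro rfl
    rw [norm_zero] at hu1
    norm_num at hu1
  have hnf : ∀ y ∈ Ω, y ≠ R z := by
    rintro y hy rfl
    rw [hT.isOpen.frontier_eq] at hf
    exact hf.2 hy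
  have hu : Tangent Ω (R z) u := ⟨hu0, fun y hy => (hu2 y (subset_closure hy) (hnf y hy)).ne'⟩
  obtain ⟨c, hc⟩ := par_of_cr hu0 (cr_velocity hT.isOpen hT.convex hp hz hu)
  have hvel := velocity_ne hp hz
  have hc0 : c ≠ 0 := by
    rintro rfl
    rw [hc] at hvel
    simp at hvel
  refine ⟨hvel, fun y hy => ?_⟩
  rw [hc, cr_mul_ofReal']
  exact mul_ne_zero hc0 (hu.2 y hy)

/-- Parameters of the vertices of polygons. -/
lemma polygon_param (hT : Table Ω) (hp : CircleParam Ω R R') {n : ℕ} :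
    ∃ c : ℂ → ℂ, (∀ p ∈ frontier Ω, R (c p) = p) ∧ ∀ P, Polygon Ω n P →
      (∀ j, c (P (j + n)) = c (P j)) ∧ (∀ j, ‖c (P j)‖ = 1) ∧ (∀ j, R (c (P j)) = P j) ∧
      (∀ j, R (c (P (j + 1))) ≠ R (c (P j))) ∧
      ∀ j, ((R (c (P j)) - R (c (P (j - 1)))) * (R (c (P (j + 1))) - R (c (P j))) *
        conj (I * c (P j) * R' (c (P j))) ^ 2).im = 0 := by
  have h : ∀ p ∈ frontier Ω, ∃ z : ℂ, ‖z‖ = 1 ∧ R z = p := by
    intro p hpf
    rw [hp.front] at hpf
    obtain ⟨z, hz, rfl⟩ := hpf
    exact ⟨z, by rwa [mem_sphere_zero_iff_norm] at hz, rfl⟩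
  choose! c hc1 hc2 using h
  refine ⟨c, hc2, fun P H => ⟨fun j => by rw [H.per j], fun j => hc1 _ (H.mem j),
    fun j => hc2 _ (H.mem j), fun j => ?_, fun j => ?_⟩⟩
  · rw [hc2 _ (H.mem _), hc2 _ (H.mem _)]; exact H.ne j
  · rw [hc2 _ (H.mem _), hc2 _ (H.mem _), hc2 _ (H.mem _)]
    apply H.law j
    have := tangent_velocity hT hp (hc1 _ (H.mem j))
    rwa [hc2 _ (H.mem j)] at this

/-- Tables with infinitely many `n`-gons have infinitely many solutions in the parameters. -/
lemma infinite_of_infinite (hT : Table Ω) (hp : CircleParam Ω R R') {n : ℕ}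
    (h : {P : ℤ → ℂ | Polygon Ω n P}.Infinite) :
    {z : ℤ → ℂ | (∀ j, z (j + n) = z j) ∧ (∀ j, ‖z j‖ = 1) ∧ (∀ j, R (z (j + 1)) ≠ R (z j)) ∧
      ∀ j, ((R (z j) - R (z (j - 1))) * (R (z (j + 1)) - R (z j)) *
        conj (I * z j * R' (z j)) ^ 2).im = 0}.Infinite := by
  obtain ⟨c, hc, hP⟩ := polygon_param hT hp (n := n)
  refine Set.infinite_of_injOn_mapsTo (f := fun P : ℤ → ℂ => fun j => c (P j)) ?_ ?_ h
  · intro P hPP Q hQ hPQ
    funext j
    rw [← (hP P hPP).2.2.1 j, ← (hP Q hQ).2.2.1 j]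
    exact congrArg R (congrFun hPQ j)
  · intro P hPP
    obtain ⟨h1, h2, h3, h4, h5⟩ := hP P hPP
    exact ⟨h1, h2, h4, h5⟩

/-- **Birkhoff's conjecture for tables whose exterior map is a Laurent polynomial.** -/
theorem exterior_coeff {a : ℂ} {b : ℕ → ℂ} {N : ℕ} (ha : a ≠ 0) (hT : Table Ω)
    (hp : CircleParam Ω (lau a b N) (deriv (lau a b N)))
    (h : (∃ 𝒦 U, CausticCollar Ω 𝒦 U) ∨ ∃ n : ℕ, 0 < n ∧ {P : ℤ → ℂ | Polygon Ω n P}.Infinite) :
    ∀ k, 2 ≤ k → k ≤ N → b k = 0 := by
  by_contra hcon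
  push Not at hcon
  obtain ⟨k₀, hk₀, hk₀N, hbk₀⟩ := hcon
  -- the largest index
  classical
  set M := Nat.findGreatest (fun k => b k ≠ 0) N with hM
  have hMb : b M ≠ 0 := Nat.findGreatest_spec (P := fun k => b k ≠ 0) hk₀N hbk₀
  have hMk : k₀ ≤ M := Nat.le_findGreatest hk₀N hbk₀
  have hMN : M ≤ N := Nat.findGreatest_le N
  have hlau : lau a b N = lau a b M := by
    funext z
    unfold lau
    congr 1
    symm
    apply sum_subset
    · intro k hk
      rw [mem_range] at hk ⊢
      omega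
    · intro k hk hk'
      rw [mem_range] at hk hk'
      have : b k = 0 := by
        by_contra hb
        have := Nat.findGreatest_is_greatest (P := fun k => b k ≠ 0) (n := N) (k := k)
          (by omega) (by omega)
        exact this hb
      rw [this, zero_mul]
  rw [hlau] at hp
  have hinf : ∃ n : ℕ, 0 < n ∧ {P : ℤ → ℂ | Polygon Ω n P}.Infinite := by
    rcases h with ⟨𝒦, U, hC⟩ | h
    · exact exists_infinite hT hC
    · exact h
  obtain ⟨n, hn, hinf⟩ := hinf
  have h1 := infinite_of_infinite hT hp hinf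
  refine h1 ((finite_polygons (by omega) ha hMb n hn).subset ?_)
  rintro z ⟨h2, h3, h4, h5⟩
  exact ⟨h2, h3, h4, fun j => velocity_ne hp (h3 j), h5⟩

end Pool.Agent.H719R3.BK
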