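import Pool.Agent.H719R3.BK.FinB

/-!
# The conclusion: ellipses
-/

open scoped ComplexConjugate
open Complex Finset

namespace Pool.Agent.H719R3.BK

open Pool.Agent.H719R3.BG

/-- `E` is an ellipse (circles included). -/
def IsEllipse (E : Set ℂ) : Prop :=
  ∃ (c : ℂ) (A B D : ℝ), 0 < A ∧ 0 < A * D - B ^ 2 ∧
    E = {w : ℂ | A * (w.re - c.re) ^ 2 + 2 * B * (w.re - c.re) * (w.im - c.im) +
      D * (w.im - c.im) ^ 2 = 1}

lemma norm_aux (a β w : ℂ) : normSq (conj a * w - β * conj w) =
    normSq (conj a - β) * w.re ^ 2 + 2 * ((conj a - β) * conj (I * (conj a + β))).re * w.re * w.im +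
      normSq (conj a + β) * w.im ^ 2 := by
  simp only [Complex.normSq_apply, Complex.sub_re, Complex.sub_im, Complex.mul_re, Complex.mul_im,
    Complex.conj_re, Complex.conj_im, Complex.add_re, Complex.add_im, Complex.I_re, Complex.I_im]
  ring

lemma det_aux (a β : ℂ) : normSq (conj a - β) * normSq (conj a + β) -
    ((conj a - β) * conj (I * (conj a + β))).re ^ 2 = (normSq a - normSq β) ^ 2 := by
  simp only [Complex.normSq_apply, Complex.sub_re, Complex.sub_im, Complex.mul_re, Complex.mul_im,
    Complex.conj_re, Complex.conj_im, Complex.add_re, Complex.add_im, Complex.I_re, Complex.I_im]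
  ring

/-- The image of the circle under `a z + β / z + c` is an ellipse. -/
lemma ellipse_image {a β c : ℂ} (h : normSq a ≠ normSq β) :
    IsEllipse ((fun z : ℂ => a * z + β * z⁻¹ + c) '' Metric.sphere 0 1) := by
  have hΔ : normSq a - normSq β ≠ 0 := sub_ne_zero.2 h
  have hΔ2 : 0 < (normSq a - normSq β) ^ 2 := by positivity
  have hab : conj a - β ≠ 0 := by
    intro h0
    apply h
    have : β = conj a := (sub_eq_zero.1 h0).symm
    rw [this, Complex.normSq_conj]
  refine ⟨c, normSq (conj a - β) / (normSq a - normSq β) ^ 2,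
    ((conj a - β) * conj (I * (conj a + β))).re / (normSq a - normSq β) ^ 2,
    normSq (conj a + β) / (normSq a - normSq β) ^ 2, ?_, ?_, ?_⟩
  · exact div_pos (Complex.normSq_pos.2 hab) hΔ2
  · have h1 := det_aux a β
    have h2 : normSq (conj a - β) / (normSq a - normSq β) ^ 2 *
        (normSq (conj a + β) / (normSq a - normSq β) ^ 2) -
        (((conj a - β) * conj (I * (conj a + β))).re / (normSq a - normSq β) ^ 2) ^ 2 =
        (normSq (conj a - β) * normSq (conj a + β) -
          ((conj a - β) * conj (I * (conj a + β))).re ^ 2) / ((normSq a - normSq β) ^ 2) ^ 2 := by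
      field_simp
    rw [h2, h1]
    positivity
  · have key : ∀ w : ℂ, (normSq (conj a - β) / (normSq a - normSq β) ^ 2 * (w.re - c.re) ^ 2 +
        2 * (((conj a - β) * conj (I * (conj a + β))).re / (normSq a - normSq β) ^ 2) *
          (w.re - c.re) * (w.im - c.im) +
        normSq (conj a + β) / (normSq a - normSq β) ^ 2 * (w.im - c.im) ^ 2 = 1) ↔
        normSq (conj a * (w - c) - β * conj (w - c)) = (normSq a - normSq β) ^ 2 := by
      intro w
      rw [norm_aux]
      simp only [Complex.sub_re, Complex.sub_im]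
      constructor
      · intro h1
        field_simp at h1
        linarith
      · intro h1
        field_simp
        linarith
    ext w
    rw [Set.mem_ofPred_eq, key]
    constructor
    · rintro ⟨z, hz, rfl⟩
      rw [mem_sphere_zero_iff_norm] at hz
      simp only [add_sub_cancel_right]
      have hz0 : z ≠ 0 := by rintro rfl; simp at hz
      have e : conj a * (a * z + β * z⁻¹) - β * conj (a * z + β * z⁻¹) =
          ((normSq a - normSq β : ℝ) : ℂ) * z := by
        rw [map_add, map_mul, map_mul, map_inv₀, conj_circle hz, inv_inv]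
        push_cast
        rw [Complex.normSq_eq_conj_mul_self, Complex.normSq_eq_conj_mul_self]
        ring
      rw [e, Complex.normSq_mul, Complex.normSq_ofReal, Complex.normSq_eq_norm_sq z, hz]
      ring
    · intro hw
      set z := (conj a * (w - c) - β * conj (w - c)) / ((normSq a - normSq β : ℝ) : ℂ) with hz
      have hΔc : ((normSq a - normSq β : ℝ) : ℂ) ≠ 0 := by exact_mod_cast hΔ
      have hzn : ‖z‖ = 1 := by
        have h1 : normSq z = 1 := by
          rw [hz, Complex.normSq_div, hw, Complex.normSq_ofReal]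
          field_simp
        have h2 := Complex.normSq_eq_norm_sq z
        rw [h1] at h2
        nlinarith [norm_nonneg z]
      refine ⟨z, by rw [mem_sphere_zero_iff_norm]; exact hzn, ?_⟩
      simp only
      have hcz : z⁻¹ = (a * conj (w - c) - conj β * (w - c)) /
          ((normSq a - normSq β : ℝ) : ℂ) := by
        rw [← conj_circle hzn, hz, map_div₀, Complex.conj_ofReal, map_sub (starRingEnd ℂ) (_ * _),
          map_mul, map_mul, Complex.conj_conj, Complex.conj_conj]
      rw [hcz, hz]
      have h1 : ((normSq a - normSq β : ℝ) : ℂ) = conj a * a - conj β * β := by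
        push_cast
        rw [Complex.normSq_eq_conj_mul_self, Complex.normSq_eq_conj_mul_self]
      field_simp
      rw [h1]
      ring

/-- **Birkhoff's conjecture for tables whose exterior map is a Laurent polynomial.** -/
theorem birkhoff_exterior (Ω : Set ℂ) (hΩ : IsOpen Ω) (hc : Convex ℝ Ω)
    (hb : Bornology.IsBounded Ω) (hne : Ω.Nonempty) (hs : StrictConvex ℝ (closure Ω))
    (a : ℂ) (b : ℕ → ℂ) (N : ℕ) (ha : a ≠ 0)
    (hf : frontier Ω = lau a b N '' Metric.sphere 0 1)
    (hr : ∀ z : ℂ, ‖z‖ = 1 → deriv (lau a b N) z ≠ 0)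
    (h : (∃ 𝒦 U, CausticCollar Ω 𝒦 U) ∨ ∃ n : ℕ, 0 < n ∧ {P : ℤ → ℂ | Polygon Ω n P}.Infinite) :
    IsEllipse (frontier Ω) := by
  have hp : CircleParam Ω (lau a b N) (deriv (lau a b N)) := by
    refine ⟨hf, fun z hz => ?_, hr⟩
    have hz0 : z ≠ 0 := by rintro rfl; simp at hz
    exact (lau_hasDerivAt hz0).differentiableAt.hasDerivAt
  have hT := table_of_param hΩ hc hb hne hs hp
  have h0 := exterior_coeff ha hT hp h
  set β : ℂ := if 1 ≤ N then b 1 else 0 with hβ
  have hlau : ∀ z, lau a b N z = a * z + β * z⁻¹ + b 0 := by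
    intro z
    unfold lau
    rcases Nat.eq_zero_or_pos N with h1 | h1
    · subst h1
      simp [hβ]
    · obtain ⟨m, rfl⟩ : ∃ m, N = m + 1 := ⟨N - 1, by omega⟩
      rw [sum_range_succ', sum_range_succ', hβ, if_pos (by omega : 1 ≤ m + 1)]
      have h2 : ∑ k ∈ range m, b (k + 1 + 1) * z⁻¹ ^ (k + 1 + 1) = 0 := by
        refine sum_eq_zero fun k hk => ?_
        rw [h0 (k + 1 + 1) (by omega) (by have := mem_range.1 hk; omega), zero_mul]
      rw [h2]
      simp
      ring
  have hlau' : lau a b N = fun z => a * z + β * z⁻¹ + b 0 := funext hlau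
  rw [hf, hlau']
  apply ellipse_image
  intro hab
  -- a critical point on the circle
  have hβ0 : β ≠ 0 := by
    rintro h2
    rw [h2, map_zero, Complex.normSq_eq_zero] at hab
    exact ha hab
  obtain ⟨z, hz⟩ : ∃ z : ℂ, z ^ 2 = β / a := IsAlgClosed.exists_pow_nat_eq _ two_pos
  have hn : ‖β / a‖ = 1 := by
    rw [Complex.normSq_eq_norm_sq, Complex.normSq_eq_norm_sq] at hab
    have h2 : ‖a‖ = ‖β‖ := by
      have := (sq_eq_sq₀ (norm_nonneg a) (norm_nonneg β)).1 hab
      exact this
    rw [norm_div, ← h2, div_self (norm_ne_zero_iff.2 ha)]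
  have hzn : ‖z‖ = 1 := by
    have h3 : ‖z‖ ^ 2 = 1 := by rw [← norm_pow, hz, hn]
    nlinarith [norm_nonneg z]
  have hz0 : z ≠ 0 := by rintro rfl; simp at hzn
  apply hr z hzn
  have h4 : HasDerivAt (fun z : ℂ => a * z + β * z⁻¹ + b 0) (a + β * (-(z ^ 2)⁻¹)) z := by
    have h5 : HasDerivAt (fun z : ℂ => a * z) a z := by
      simpa using (hasDerivAt_id z).const_mul a
    exact (h5.add ((hasDerivAt_inv hz0).const_mul β)).add_const _
  rw [hlau', h4.deriv, hz]
  field_simp
  ring

end Pool.Agent.H719R3.BK
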