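import Pool.Agent.H719R3.BK.Trap

/-!
# The plateau theorem
-/

open Finset

namespace Pool.Agent.H719R3.BK

variable {K : Type*} [Field K] {φ : ℂ →+* K} {N : ℕ} {a : ℂ} {b : ℕ → ℂ} {a' : ℂ} {b' : ℕ → ℂ}
  {n : ℕ} {t : ℤ → K} {Γ₀ : Type*} [LinearOrderedCommGroupWithZero Γ₀] {w : Valuation K Γ₀}

/-- The geometric sum. -/
noncomputable def GG {R : Type*} [CommRing R] (N : ℕ) (s : R) : R := ∑ i ∈ range N, s ^ i

lemma cong_mul {x x' y y' : K} (hx : w (x - x') < 1) (hy : w (y - y') < 1) (hx' : w x' ≤ 1)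
    (hy' : w y' ≤ 1) : w (x * y - x' * y') < 1 := by
  have hy1 : w y ≤ 1 := by
    have e : y = (y - y') + y' := by ring
    rw [e]; exact Valuation.map_add_le w hy.le hy'
  have e : x * y - x' * y' = (x - x') * y + x' * (y - y') := by ring
  rw [e]
  refine Valuation.map_add_lt w ?_ ?_
  · rw [map_mul]
    calc w (x - x') * w y ≤ w (x - x') * 1 := by gcongr
      _ < 1 := by rw [mul_one]; exact hx
  · rw [map_mul]
    calc w x' * w (y - y') ≤ 1 * w (y - y') := by gcongr
      _ < 1 := by rw [one_mul]; exact hy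

lemma GG_le {s : K} (hs : w s ≤ 1) : w (GG N s) ≤ 1 := by
  unfold GG
  refine Valuation.map_sum_le w fun i _ => ?_
  rw [map_pow]
  exact pow_le_one₀ zero_le hs

lemma GG_cong (hφ : ∀ c : ℂ, c ≠ 0 → w (φ c) = 1) {s : K} {c : ℂ} (hs : w (s - φ c) < 1) :
    w (GG N s - φ (GG N c)) < 1 := by
  have hp : ∀ i : ℕ, w (s ^ i - φ c ^ i) < 1 := by
    intro i
    induction i with
    | zero => simp
    | succ i ih =>
      rw [pow_succ, pow_succ]
      refine cong_mul ih hs ?_ (wphi_le hφ c)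
      rw [map_pow]
      exact pow_le_one₀ zero_le (wphi_le hφ c)
  unfold GG
  rw [map_sum, ← sum_sub_distrib]
  refine Valuation.map_sum_lt w one_ne_zero fun i _ => ?_
  rw [map_pow]
  exact hp i

/-- The leading term of `Q`. -/
lemma QQ_lead (hφ : ∀ c : ℂ, c ≠ 0 → w (φ c) = 1) (hN : 2 ≤ N) (a' : ℂ) (b' : ℕ → ℂ)
    {x y : K} (hx0 : x ≠ 0) (hx : 1 < w x) (hy : w y ≤ w x) (hy2 : (w y)⁻¹ ≤ w x) :
    w (QQ φ N a' b' y x / x ^ (N - 1) - -(φ (b' N) * GG N (y / x))) < 1 := by
  have h0 := SS_lead (φ := φ) hφ hN b' hx hy le_rfl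
  have hx0' : 0 < w x := lt_trans zero_lt_one hx
  have h1 : ∑ i ∈ range N, y ^ i * x ^ (N - 1 - i) = x ^ (N - 1) * GG N (y / x) := by
    unfold GG
    rw [mul_sum]
    refine sum_congr rfl fun i hi => ?_
    have hi' := mem_range.1 hi
    have : x ^ (N - 1) = x ^ (N - 1 - i) * x ^ i := by rw [← pow_add]; congr 1; omega
    rw [this, div_pow]
    field_simp
  have hxN : x ^ (N - 1) ≠ 0 := pow_ne_zero _ hx0
  have e : QQ φ N a' b' y x / x ^ (N - 1) - -(φ (b' N) * GG N (y / x)) =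
      (φ a' * (y⁻¹ * x⁻¹) - (SS φ N b' y x - φ (b' N) * ∑ i ∈ range N, y ^ i * x ^ (N - 1 - i))) /
        x ^ (N - 1) := by
    rw [h1]
    unfold QQ
    field_simp
    ring
  rw [e, map_div₀, map_pow]
  rw [div_lt_one₀ (pow_pos hx0' _)]
  refine Valuation.map_sub_lt w ?_ h0
  calc w (φ a' * (y⁻¹ * x⁻¹)) ≤ 1 * (w x * (w x)⁻¹) := by
        rw [map_mul, map_mul, map_inv₀, map_inv₀]
        exact mul_le_mul' (wphi_le hφ _) (mul_le_mul' hy2 le_rfl)
    _ = 1 := by rw [one_mul, mul_inv_cancel₀ hx0'.ne']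
    _ < w x ^ (N - 1) := one_lt_pow₀ hx (by omega)

lemma PP_dich (hφ : ∀ c : ℂ, c ≠ 0 → w (φ c) = 1) (hN : 2 ≤ N) (a : ℂ) {b : ℕ → ℂ}
    (hb : b N ≠ 0) {x y : K} (hy : 1 < w y) (hne : w x ^ N * w y ≠ 1) (hx : x ≠ 0) :
    w (PP φ N a b x y - φ a) < 1 ∨ 1 < w (PP φ N a b x y) := by
  rcases lt_or_gt_of_ne hne with h | h
  · right
    have hx0 : 0 < w x := zero_lt_iff.2 ((Valuation.ne_zero_iff w).2 hx)
    have hx1 : w x < 1 := by
      by_contra hcon
      push Not at hcon
      have : 1 ≤ w x ^ N * w y := one_le_mul (one_le_pow₀ hcon) hy.le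
      exact absurd this (not_le.2 h)
    have hxi : 1 < w x⁻¹ := by rw [map_inv₀]; exact (one_lt_inv₀ hx0).2 hx1
    have hyi : w y⁻¹ < w x⁻¹ := by
      refine lt_trans ?_ hxi
      rw [map_inv₀]; exact inv_lt_one_of_one_lt₀ hy
    have h1 : w (x⁻¹ * y⁻¹ * SS φ N b x⁻¹ y⁻¹) = (w x ^ N * w y)⁻¹ := by
      rw [SS_comm, map_mul, SS_eq hφ hN hb hxi hyi, map_mul, map_inv₀, map_inv₀]
      obtain ⟨m, rfl⟩ : ∃ m, N = m + 1 := ⟨N - 1, by omega⟩
      rw [Nat.add_sub_cancel, mul_inv, inv_pow, pow_succ, mul_inv]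
      ac_rfl
    have h2 : 1 < (w x ^ N * w y)⁻¹ := by
      apply (one_lt_inv₀ _).2 h
      exact mul_pos (pow_pos hx0 _) (lt_trans zero_lt_one hy)
    unfold PP
    rw [Valuation.map_sub_eq_of_lt_right _ (by rw [h1]; exact (wphi_le hφ a).trans_lt h2), h1]
    exact h2
  · left
    exact PP_lead hφ hN a b hy h

/-- The reflection law at a vertex of maximal size. -/
theorem max_law (hφ : ∀ c : ℂ, c ≠ 0 → w (φ c) = 1) (hN : 2 ≤ N) (ha : a ≠ 0) (ha' : a' ≠ 0)
    (hb : b N ≠ 0) (hb' : b' N ≠ 0) (H : Chain φ N a b a' b' n t) {j : ℤ} (hρ : 1 < w (t j))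
    (hB : ∀ i, w (t i) ≤ w (t j) ∧ (w (t i))⁻¹ ≤ w (t j)) :
    w (GG N (t (j - 1) / t j) * GG N (t (j + 1) / t j) - φ ((N : ℂ) ^ 2)) < 1 := by
  have hρ0 : 0 < w (t j) := lt_trans zero_lt_one hρ
  have hplus : w (t (j + 1)) ^ N * w (t j) ≠ 1 := fun h =>
    start_trap hφ hN ha ha' hb hb' H hρ hB rfl h
  have hminus : w (t (j - 1)) ^ N * w (t j) ≠ 1 := by
    intro h
    refine start_trap hφ hN ha ha' hb hb' H.rev hρ (fun i => hB (-i)) (i := -j)
      (by rw [neg_neg]) ?_
    rw [show -(-j + 1) = j - 1 by ring]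
    exact h
  set x := t j with hx
  set y := t (j - 1)
  set z := t (j + 1)
  have hxne : x ≠ 0 := H.ne j
  have hyne : y ≠ 0 := H.ne _
  have hzne : z ≠ 0 := H.ne _
  have hPy := PP_dich hφ hN a hb hρ hminus hyne
  have hPz := PP_dich hφ hN a hb hρ hplus hzne
  have hQy := QQ_lead hφ hN a' b' hxne hρ (hB (j - 1)).1 (hB (j - 1)).2
  have hQz := QQ_lead hφ hN a' b' hxne hρ (hB (j + 1)).1 (hB (j + 1)).2
  have hQx := QQ_lead hφ hN a' b' hxne hρ le_rfl (hB j).2
  have hPx : w (PP φ N a b x x - φ a) < 1 := PP_lead hφ hN a b hρ (by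
    calc (1 : Γ₀) < w x := hρ
      _ ≤ w x ^ N * w x := le_mul_of_one_le_left' (one_le_pow₀ hρ.le))
  have hlaw := H.law j
  rw [← hx] at hlaw
  rw [QQ_comm φ N a' b' x (t (j + 1)), PP_comm φ N a b x (t (j + 1))] at hlaw
  have hxN : x ^ (N - 1) ≠ 0 := pow_ne_zero _ hxne
  have hlaw' : QQ φ N a' b' y x / x ^ (N - 1) * (QQ φ N a' b' z x / x ^ (N - 1)) *
      (PP φ N a b x x * PP φ N a b x x) = PP φ N a b y x * PP φ N a b z x *
      (QQ φ N a' b' x x / x ^ (N - 1) * (QQ φ N a' b' x x / x ^ (N - 1))) := by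
    field_simp
    linear_combination hlaw
  set qy := QQ φ N a' b' y x / x ^ (N - 1)
  set qz := QQ φ N a' b' z x / x ^ (N - 1)
  set qx := QQ φ N a' b' x x / x ^ (N - 1)
  have hGx : GG N (x / x) = (N : K) := by
    unfold GG
    rw [div_self hxne]; simp
  rw [hGx] at hQx
  have wN : w (N : K) = 1 := by
    have := hφ (N : ℂ) (by exact_mod_cast (by omega : N ≠ 0))
    rwa [map_natCast] at this
  have hsy : w (y / x) ≤ 1 := by
    rw [map_div₀]; exact (div_le_one₀ hρ0).2 (hB (j - 1)).1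
  have hsz : w (z / x) ≤ 1 := by
    rw [map_div₀]; exact (div_le_one₀ hρ0).2 (hB (j + 1)).1
  have hb1 : w (φ (b' N)) = 1 := hφ _ hb'
  have ha1 : w (φ a) = 1 := hφ _ ha
  have ly : w (-(φ (b' N) * GG N (y / x))) ≤ 1 := by
    rw [Valuation.map_neg, map_mul, hb1, one_mul]; exact GG_le hsy
  have lz : w (-(φ (b' N) * GG N (z / x))) ≤ 1 := by
    rw [Valuation.map_neg, map_mul, hb1, one_mul]; exact GG_le hsz
  have lx : w (-(φ (b' N) * (N : K))) = 1 := by
    rw [Valuation.map_neg, map_mul, hb1, one_mul, wN]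
  have wqx : w qx = 1 := wadd_eq hQx lx
  have wPx : w (PP φ N a b x x) = 1 := wadd_eq hPx ha1
  have wqy : w qy ≤ 1 := by
    have e : qy = (qy - -(φ (b' N) * GG N (y / x))) + -(φ (b' N) * GG N (y / x)) := by ring
    rw [e]; exact Valuation.map_add_le w hQy.le ly
  have wqz : w qz ≤ 1 := by
    have e : qz = (qz - -(φ (b' N) * GG N (z / x))) + -(φ (b' N) * GG N (z / x)) := by ring
    rw [e]; exact Valuation.map_add_le w hQz.le lz
  have hval := congrArg w hlaw'
  rw [map_mul, map_mul, map_mul w (PP φ N a b x x), wPx, map_mul w (_ * _) (qx * qx), map_mul,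
    map_mul w qx, wqx] at hval
  simp only [mul_one] at hval
  have hle : w (PP φ N a b y x) * w (PP φ N a b z x) ≤ 1 := by
    rw [← hval]; exact mul_le_one' wqy wqz
  have hge : ∀ {u : K}, (w (PP φ N a b u x - φ a) < 1 ∨ 1 < w (PP φ N a b u x)) →
      1 ≤ w (PP φ N a b u x) := by
    intro u hu
    rcases hu with hu | hu
    · exact (wadd_eq hu ha1).ge
    · exact hu.le
  have hPy' : w (PP φ N a b y x - φ a) < 1 := by
    rcases hPy with h | h
    · exact h
    · exfalso
      have : 1 < w (PP φ N a b y x) * w (PP φ N a b z x) :=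
        h.trans_le (le_mul_of_one_le_right' (hge hPz))
      exact absurd hle (not_le.2 this)
  have hPz' : w (PP φ N a b z x - φ a) < 1 := by
    rcases hPz with h | h
    · exact h
    · exfalso
      have : 1 < w (PP φ N a b y x) * w (PP φ N a b z x) :=
        h.trans_le (le_mul_of_one_le_left' (hge hPy))
      exact absurd hle (not_le.2 this)
  have c1 := cong_mul (cong_mul hQy hQz ly lz) (cong_mul hPx hPx ha1.le ha1.le)
    (by rw [map_mul]; exact mul_le_one' ly lz) (by rw [map_mul, ha1, one_mul])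
  have c2 := cong_mul (cong_mul hPy' hPz' ha1.le ha1.le) (cong_mul hQx hQx lx.le lx.le)
    (by rw [map_mul, ha1, one_mul]) (by rw [map_mul, lx, one_mul])
  rw [hlaw'] at c1
  have c3 := Valuation.map_sub_lt w c2 c1
  have e3 : PP φ N a b y x * PP φ N a b z x * (qx * qx) -
        φ a * φ a * (-(φ (b' N) * (N : K)) * -(φ (b' N) * (N : K))) -
      (PP φ N a b y x * PP φ N a b z x * (qx * qx) -
        -(φ (b' N) * GG N (y / x)) * -(φ (b' N) * GG N (z / x)) * (φ a * φ a)) =
      (φ a * φ a * (φ (b' N) * φ (b' N))) *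
        (GG N (y / x) * GG N (z / x) - φ ((N : ℂ) ^ 2)) := by
    rw [map_pow, map_natCast]; ring
  rw [e3, map_mul, map_mul, map_mul, map_mul, ha1, hb1, one_mul, one_mul, one_mul] at c3
  exact c3

/-- Bounds for the geometric sum over `ℂ`. -/
lemma GG_norm_le {c : ℂ} (hc : ‖c‖ ≤ 1) : ‖GG N c‖ ≤ N := by
  unfold GG
  calc ‖∑ i ∈ range N, c ^ i‖ ≤ ∑ i ∈ range N, ‖c ^ i‖ := norm_sum_le _ _
    _ ≤ ∑ _i ∈ range N, (1 : ℝ) := by
        refine sum_le_sum fun i _ => ?_
        rw [norm_pow]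
        exact pow_le_one₀ (norm_nonneg _) hc
    _ = N := by simp

lemma GG_norm_lt (hN : 2 ≤ N) {c : ℂ} (hc : ‖c‖ < 1) : ‖GG N c‖ < N := by
  unfold GG
  calc ‖∑ i ∈ range N, c ^ i‖ ≤ ∑ i ∈ range N, ‖c ^ i‖ := norm_sum_le _ _
    _ < ∑ _i ∈ range N, (1 : ℝ) := by
        refine sum_lt_sum (fun i _ => ?_) ⟨1, mem_range.2 (by omega), ?_⟩
        · rw [norm_pow]
          exact pow_le_one₀ (norm_nonneg _) hc.le
        · rw [pow_one]; exact hc
    _ = N := by simp

lemma GG_norm_eq (hN : 2 ≤ N) {c : ℂ} (hc : ‖c‖ = 1) (h : (N : ℝ) ≤ ‖GG N c‖) : c = 1 := by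
  obtain ⟨m, rfl⟩ : ∃ m, N = m + 2 := ⟨N - 2, by omega⟩
  have h1 : ‖GG (m + 2) c‖ ≤ ‖1 + c‖ + m := by
    unfold GG
    rw [sum_range_succ', sum_range_succ']
    have e : ∑ k ∈ range m, c ^ (k + 1 + 1) + c ^ (0 + 1) + c ^ 0 =
      (1 + c) + ∑ k ∈ range m, c ^ (k + 1 + 1) := by ring
    rw [e]
    refine (norm_add_le _ _).trans ?_
    gcongr
    calc ‖∑ k ∈ range m, c ^ (k + 1 + 1)‖ ≤ ∑ k ∈ range m, ‖c ^ (k + 1 + 1)‖ := norm_sum_le _ _
      _ = m := by simp [hc]
  have h2 : 2 ≤ ‖1 + c‖ := by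
    push_cast at h
    linarith
  have h3 : ‖1 + c‖ ^ 2 = 2 + 2 * c.re := by
    have hc2 : c.re * c.re + c.im * c.im = 1 := by
      have := Complex.normSq_eq_norm_sq c
      rw [hc, Complex.normSq_apply] at this
      linarith
    rw [← Complex.normSq_eq_norm_sq, Complex.normSq_apply]
    simp only [Complex.add_re, Complex.one_re, Complex.add_im, Complex.one_im]
    nlinarith
  have hc2 : c.re * c.re + c.im * c.im = 1 := by
    have := Complex.normSq_eq_norm_sq c
    rw [hc, Complex.normSq_apply] at this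
    linarith
  have h4 : 1 ≤ c.re := by nlinarith
  have h5 : c.re = 1 := by nlinarith [mul_self_nonneg c.im]
  have h6 : c.im = 0 := by
    rw [h5] at hc2
    have : c.im * c.im = 0 := by linarith
    exact mul_self_eq_zero.1 this
  exact Complex.ext h5 h6

/-- Residues of solutions of `G s ≡ d`. -/
lemma GG_root (hN : 2 ≤ N) {s : K} {d : ℂ}
    (h : w (GG N s - φ d) < 1) : ∃ c : ℂ, w (s - φ c) < 1 ∧ GG N c = d := by
  obtain ⟨m, rfl⟩ : ∃ m, N = m + 1 + 1 := ⟨N - 2, by omega⟩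
  set p : Polynomial ℂ := ∑ i ∈ range (m + 1 + 1), Polynomial.X ^ i - Polynomial.C d with hp
  have hdeg : p = Polynomial.X ^ (m + 1) +
      (∑ i ∈ range (m + 1), Polynomial.X ^ i - Polynomial.C d) := by
    rw [hp, sum_range_succ]; ring
  have hlt : (∑ i ∈ range (m + 1), (Polynomial.X : Polynomial ℂ) ^ i - Polynomial.C d).degree <
      ((m + 1 : ℕ) : WithBot ℕ) := by
    refine lt_of_le_of_lt (Polynomial.degree_sub_le _ _) (max_lt ?_ ?_)
    · refine lt_of_le_of_lt (Polynomial.degree_sum_le _ _) ?_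
      rw [Finset.sup_lt_iff (by exact WithBot.bot_lt_coe _)]
      intro i hi
      rw [Polynomial.degree_X_pow]
      exact_mod_cast mem_range.1 hi
    · exact lt_of_le_of_lt Polynomial.degree_C_le (by exact_mod_cast Nat.succ_pos m)
  have hmon : p.Monic := by
    rw [hdeg]
    exact Polynomial.monic_X_pow_add hlt
  have hsplit := IsAlgClosed.splits p
  have hprod := Polynomial.Splits.eq_prod_roots_of_monic hsplit hmon
  have hev : GG (m + 1 + 1) s - φ d = (p.roots.map fun c => s - φ c).prod := by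
    have h1 : p.eval₂ φ s = GG (m + 1 + 1) s - φ d := by
      rw [hp, Polynomial.eval₂_sub, Polynomial.eval₂_finsetSum, Polynomial.eval₂_C]
      unfold GG
      congr 1
      exact sum_congr rfl fun i _ => Polynomial.eval₂_X_pow φ s
    rw [← h1]
    conv_lhs => rw [hprod]
    rw [Polynomial.eval₂_multiset_prod, Multiset.map_map]
    congr 1
    refine Multiset.map_congr rfl fun c _ => ?_
    simp
  rw [hev] at h
  have hex : ∃ c ∈ p.roots, w (s - φ c) < 1 := by
    by_contra hcon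
    push Not at hcon
    have : 1 ≤ w (p.roots.map fun c => s - φ c).prod := by
      rw [map_multiset_prod, Multiset.map_map]
      refine Multiset.one_le_prod_of_one_le ?_
      intro x hx
      obtain ⟨c, hc, rfl⟩ := Multiset.mem_map.1 hx
      exact hcon c hc
    exact absurd h (not_lt.2 this)
  obtain ⟨c, hc, hw⟩ := hex
  refine ⟨c, hw, ?_⟩
  have h2 := (Polynomial.mem_roots'.1 hc).2
  rw [Polynomial.IsRoot.def, hp, Polynomial.eval_sub, Polynomial.eval_finsetSum, Polynomial.eval_C]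
    at h2
  have h3 : ∑ i ∈ range (m + 1 + 1), Polynomial.eval c (Polynomial.X ^ i) = GG (m + 1 + 1) c := by
    unfold GG
    exact sum_congr rfl fun i _ => by simp
  rw [h3] at h2
  exact sub_eq_zero.1 h2

/-- One step backwards on a plateau. -/
lemma descend (hφ : ∀ c : ℂ, c ≠ 0 → w (φ c) = 1) (hN : 2 ≤ N) {u v : K} (hu : w u ≤ 1)
    (h : w (GG N u * GG N v - φ ((N : ℂ) ^ 2)) < 1) {c : ℂ} (hc : ‖c‖ < 1)
    (hv : w (v - φ c) < 1) : ∃ c' : ℂ, 1 < ‖c'‖ ∧ w (u - φ c') < 1 := by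
  have hG := GG_cong (N := N) hφ hv
  have hN2 : ((N : ℂ) ^ 2) ≠ 0 := pow_ne_zero _ (by exact_mod_cast (by omega : N ≠ 0))
  have hlt := GG_norm_lt hN hc
  have hne : GG N c ≠ 0 := by
    intro h0
    rw [h0, map_zero, sub_zero] at hG
    have h1 : w (GG N u * GG N v) < 1 := by
      rw [map_mul]
      calc w (GG N u) * w (GG N v) ≤ 1 * w (GG N v) := by gcongr; exact GG_le hu
        _ < 1 := by rw [one_mul]; exact hG
    have h2 := wadd_eq h (hφ _ hN2)
    exact absurd h2 h1.ne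
  set d := (N : ℂ) ^ 2 / GG N c with hd
  have hroot : w (GG N u - φ d) < 1 := by
    have h1 : w (GG N u * GG N v - GG N u * φ (GG N c)) < 1 := by
      rw [← mul_sub, map_mul]
      calc w (GG N u) * w (GG N v - φ (GG N c)) ≤ 1 * w (GG N v - φ (GG N c)) := by
            gcongr; exact GG_le hu
        _ < 1 := by rw [one_mul]; exact hG
    have h2 := Valuation.map_sub_lt w h h1
    have e : GG N u * GG N v - φ ((N : ℂ) ^ 2) - (GG N u * GG N v - GG N u * φ (GG N c)) =
        φ (GG N c) * (GG N u - φ d) := by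
      have : φ ((N : ℂ) ^ 2) = φ (GG N c) * φ d := by
        rw [← map_mul, hd, mul_div_cancel₀ _ hne]
      rw [this]; ring
    rw [e, map_mul, hφ _ hne, one_mul] at h2
    exact h2
  obtain ⟨c', h1, h2⟩ := GG_root hN hroot
  refine ⟨c', ?_, h1⟩
  by_contra hcon
  push Not at hcon
  have h3 := GG_norm_le (N := N) hcon
  rw [h2, hd, norm_div, norm_pow, Complex.norm_natCast] at h3
  have hNpos : (0 : ℝ) < N := by exact_mod_cast (by omega : 0 < N)
  have hgpos : 0 < ‖GG N c‖ := norm_pos_iff.2 hne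
  rw [div_le_iff₀ hgpos] at h3
  nlinarith

/-- The plateau theorem, for chains with a vertex of maximal size near infinity. -/
theorem plateau_aux (hφ : ∀ c : ℂ, c ≠ 0 → w (φ c) = 1) (hN : 2 ≤ N) (ha : a ≠ 0) (ha' : a' ≠ 0)
    (hb : b N ≠ 0) (hb' : b' N ≠ 0) (H : Chain φ N a b a' b' n t) {j : ℤ} (hρ : 1 < w (t j))
    (hB : ∀ i, w (t i) ≤ w (t j) ∧ (w (t i))⁻¹ ≤ w (t j)) (i : ℤ) : w (t i) = w (t j) := by
  -- if the next vertex is smaller, then going backwards all vertices are maximal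
  have key : ∀ k : ℤ, w (t k) = w (t j) → w (t (k + 1)) < w (t j) → False := by
    intro k hk hk1
    have hback : ∀ m : ℕ, w (t (k - m)) = w (t j) ∧ ∃ c : ℂ, ‖c‖ < 1 ∧
        w (t (k - m + 1) / t (k - m) - φ c) < 1 := by
      intro m
      induction m with
      | zero =>
        rw [Nat.cast_zero, sub_zero]
        refine ⟨hk, 0, by simp, ?_⟩
        rw [map_zero, sub_zero, map_div₀, hk]
        exact (div_lt_one₀ (lt_trans zero_lt_one hρ)).2 hk1
      | succ m ih =>
        obtain ⟨h1, c, hc, h2⟩ := ih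
        have hB' : ∀ i, w (t i) ≤ w (t (k - m)) ∧ (w (t i))⁻¹ ≤ w (t (k - m)) := by
          rw [h1]; exact hB
        have hl := max_law hφ hN ha ha' hb hb' H (by rw [h1]; exact hρ) hB'
        obtain ⟨c', hc', h3⟩ := descend hφ hN (by
          rw [map_div₀]
          exact (div_le_one₀ (by rw [h1]; exact lt_trans zero_lt_one hρ)).2 (hB' _).1) hl hc h2
        have hc0 : c' ≠ 0 := by
          rintro rfl
          rw [norm_zero] at hc'
          exact absurd hc' (by norm_num)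
        have h4 : w (t (k - m - 1) / t (k - m)) = 1 := wadd_eq h3 (hφ _ hc0)
        have h5 : w (t (k - m - 1)) = w (t j) := by
          rw [map_div₀, h1] at h4
          exact (div_eq_one_iff_eq (lt_trans zero_lt_one hρ).ne').1 h4
        push_cast
        rw [show k - ((m : ℤ) + 1) = k - m - 1 by ring]
        refine ⟨h5, c'⁻¹, ?_, ?_⟩
        · rw [norm_inv]
          exact inv_lt_one_of_one_lt₀ hc'
        · rw [sub_add_cancel]
          have hne1 := H.ne (k - m - 1)
          have hne2 := H.ne (k - m)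
          have hφc : φ c' ≠ 0 := (map_ne_zero φ).2 hc0
          have e : t (k - m) / t (k - m - 1) - φ c'⁻¹ =
              -((t (k - m - 1) / t (k - m) - φ c') /
                (t (k - m - 1) / t (k - m) * φ c')) := by
            rw [map_inv₀]
            field_simp
            ring
          rw [e, Valuation.map_neg, map_div₀, map_mul, h4, hφ _ hc0, one_mul, div_one]
          exact h3
    -- periodicity
    have hn := H.hn
    have h6 := (hback (n - 1)).1
    have h7 : k + 1 = (k - ((n - 1 : ℕ) : ℤ)) + n := by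
      rw [Nat.cast_sub hn]; push_cast; ring
    rw [h7, H.per] at hk1
    exact absurd h6 hk1.ne
  have hall : ∀ m : ℕ, w (t (j + m)) = w (t j) := by
    intro m
    induction m with
    | zero => rw [Nat.cast_zero, add_zero]
    | succ m ih =>
      push_cast
      rw [← add_assoc]
      rcases lt_or_eq_of_le (hB (j + m + 1)).1 with h | h
      · exact absurd (key _ ih h) (by simp)
      · exact h
  -- any index is congruent to some `j + m`
  have hper : ∀ (q : ℕ) (i : ℤ), t (i + q * n) = t i := by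
    intro q
    induction q with
    | zero => intro i; simp
    | succ q ih =>
      intro i
      push_cast
      rw [show i + ((q : ℤ) + 1) * n = (i + q * n) + n by ring, H.per, ih]
  set q : ℕ := (j - i).toNat with hq
  have h8 : j ≤ i + q * n := by
    have h9 : j - i ≤ q := by rw [hq]; exact Int.self_le_toNat _
    have h10 : (q : ℤ) * 1 ≤ q * n := by
      apply mul_le_mul_of_nonneg_left _ (by positivity)
      have := H.hn
      omega
    linarith
  obtain ⟨m, hm⟩ := Int.eq_ofNat_of_zero_le (sub_nonneg.2 h8)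
  have h9 := hall m
  rw [show j + (m : ℤ) = i + q * n by rw [← hm]; ring, hper] at h9
  exact h9

/-- The plateau theorem: if one vertex is near zero or infinity, then all are, with the same
size. -/
theorem plateau (hφ : ∀ c : ℂ, c ≠ 0 → w (φ c) = 1) (hN : 2 ≤ N) (ha : a ≠ 0) (ha' : a' ≠ 0)
    (hb : b N ≠ 0) (hb' : b' N ≠ 0) (H : Chain φ N a b a' b' n t) {i₀ : ℤ} (h0 : w (t i₀) ≠ 1)
    (i k : ℤ) : w (t i) = w (t k) := by
  have hper : ∀ (q : ℕ) (i : ℤ), t (i + q * n) = t i := by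
    intro q
    induction q with
    | zero => intro i; simp
    | succ q ih =>
      intro i
      push_cast
      rw [show i + ((q : ℤ) + 1) * n = (i + q * n) + n by ring, H.per, ih]
  have hn := H.hn
  obtain ⟨j, hj, hmax⟩ := exists_max_image (range n) (fun j : ℕ => mag w (t j))
    ⟨0, mem_range.2 hn⟩
  have hmax' : ∀ i : ℤ, mag w (t i) ≤ mag w (t j) := by
    intro i
    have hn' : (0 : ℤ) < n := by exact_mod_cast hn
    have h1 : t i = t (i % n) := by
      have h2 := Int.emod_add_mul_ediv i n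
      rcases le_total 0 (i / n) with h | h
      · obtain ⟨q, hq⟩ := Int.eq_ofNat_of_zero_le h
        rw [hq] at h2
        conv_lhs => rw [← h2]
        rw [show i % n + n * (q : ℤ) = i % n + q * n by ring]
        exact hper q _
      · obtain ⟨q, hq⟩ := Int.eq_ofNat_of_zero_le (neg_nonneg.2 h)
        have h3 : i / n = -(q : ℤ) := by omega
        rw [h3] at h2
        have h4 : i % n = i + q * n := by linarith
        rw [h4, hper]
    rw [h1]
    have h3 := Int.emod_nonneg i hn'.ne'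
    have h4 := Int.emod_lt_of_pos i hn'
    obtain ⟨m, hm⟩ := Int.eq_ofNat_of_zero_le h3
    rw [hm]
    exact hmax m (mem_range.2 (by omega))
  have hpos : ∀ i, 0 < w (t i) := fun i => zero_lt_iff.2 ((Valuation.ne_zero_iff w).2 (H.ne i))
  have hgt : 1 < mag w (t (j : ℤ)) := by
    refine lt_of_lt_of_le ?_ (hmax' i₀)
    unfold mag
    rcases lt_or_gt_of_ne h0 with h | h
    · exact lt_max_of_lt_right ((one_lt_inv₀ (hpos i₀)).2 h)
    · exact lt_max_of_lt_left h
  rcases le_total (w (t (j : ℤ)))⁻¹ (w (t (j : ℤ))) with hle | hle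
  · have hm : mag w (t (j : ℤ)) = w (t j) := max_eq_left hle
    rw [hm] at hgt hmax'
    have hB : ∀ i, w (t i) ≤ w (t j) ∧ (w (t i))⁻¹ ≤ w (t j) := fun i =>
      ⟨(le_max_left _ _).trans (hmax' i), (le_max_right _ _).trans (hmax' i)⟩
    rw [plateau_aux hφ hN ha ha' hb hb' H hgt hB i, plateau_aux hφ hN ha ha' hb hb' H hgt hB k]
  · have hm : mag w (t (j : ℤ)) = (w (t j))⁻¹ := max_eq_right hle
    rw [hm] at hgt hmax'
    have hB : ∀ i, w ((t i)⁻¹) ≤ w ((t j)⁻¹) ∧ (w ((t i)⁻¹))⁻¹ ≤ w ((t j)⁻¹) := fun i => by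
      rw [map_inv₀, map_inv₀, inv_inv]
      exact ⟨(le_max_right _ _).trans (hmax' i), (le_max_left _ _).trans (hmax' i)⟩
    have hgt' : 1 < w ((t (j : ℤ))⁻¹) := by rw [map_inv₀]; exact hgt
    have h1 := plateau_aux hφ hN ha' ha hb' hb H.inv hgt' hB i
    have h2 := plateau_aux hφ hN ha' ha hb' hb H.inv hgt' hB k
    have h3 := h1.trans h2.symm
    rw [map_inv₀, map_inv₀] at h3
    exact inv_injective h3

end Pool.Agent.H719R3.BK
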