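import Pool.Agent.H719R3.BK.Global

/-!
# Billiard polygons in curves whose exterior map is a Laurent polynomial
-/

open Finset Filter Complex
open scoped ComplexConjugate

namespace Pool.Agent.H719R3.BK

open Pool.Agent.H719R2.PIR (GG gm cst gm_eq gm_ne_zero)

/-- The Laurent polynomial `a z + ∑_{k ≤ N} b_k z^{-k}`. -/
noncomputable def lau (a : ℂ) (b : ℕ → ℂ) (N : ℕ) (z : ℂ) : ℂ :=
  a * z + ∑ k ∈ range (N + 1), b k * z⁻¹ ^ k

/-- The velocity `d/dθ` of the curve `lau (e^{iθ})`. -/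
noncomputable def vel (a : ℂ) (b : ℕ → ℂ) (N : ℕ) (z : ℂ) : ℂ := I * z * deriv (lau a b N) z

/-- Closed billiard polygons: `z j` is the parameter of the `j`-th vertex (on the unit circle),
consecutive vertices are different, and at every vertex the lines to the two neighbours are
mirror images of each other in the tangent line. -/
structure BilliardPolygon (a : ℂ) (b : ℕ → ℂ) (N n : ℕ) (z : ℤ → ℂ) : Prop where
  per : ∀ j, z (j + n) = z j
  norm : ∀ j, ‖z j‖ = 1
  ne : ∀ j, lau a b N (z (j + 1)) ≠ lau a b N (z j)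
  reg : ∀ j, vel a b N (z j) ≠ 0
  law : ∀ j, ((lau a b N (z j) - lau a b N (z (j - 1))) *
    (lau a b N (z (j + 1)) - lau a b N (z j)) * conj (vel a b N (z j)) ^ 2).im = 0

variable {a : ℂ} {b : ℕ → ℂ} {N n : ℕ}

lemma lau_eq (z : ℂ) : lau a b N z = XX (RingHom.id ℂ) N a b z := rfl

lemma lau_hasDerivAt {z : ℂ} (hz : z ≠ 0) :
    HasDerivAt (lau a b N) (PP (RingHom.id ℂ) N a b z z) z := by
  unfold lau
  have h1 : HasDerivAt (fun z : ℂ => a * z) a z := by
    simpa using (hasDerivAt_id z).const_mul a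
  have h2 : ∀ k ∈ range (N + 1), HasDerivAt (fun z : ℂ => b k * z⁻¹ ^ k)
      (b k * (k * z⁻¹ ^ (k - 1) * (-(z ^ 2)⁻¹))) z := fun k _ =>
    ((hasDerivAt_inv hz).pow k).const_mul (b k)
  have h3 := h1.add (HasDerivAt.fun_sum h2)
  refine HasDerivAt.congr_deriv h3 ?_
  symm
  unfold PP SS
  rw [RingHom.id_apply, sub_eq_add_neg]
  congr 1
  rw [mul_sum, ← sum_neg_distrib]
  refine sum_congr rfl fun k _ => ?_
  have h4 : ∑ i ∈ range k, z⁻¹ ^ i * z⁻¹ ^ (k - 1 - i) = k * z⁻¹ ^ (k - 1) := by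
    rw [sum_congr rfl (g := fun _ => z⁻¹ ^ (k - 1))]
    · rw [sum_const, card_range, nsmul_eq_mul]
    · intro i hi
      have := mem_range.1 hi
      rw [← pow_add]; congr 1; omega
  rw [h4, RingHom.id_apply]
  field_simp

lemma vel_eq {z : ℂ} (hz : z ≠ 0) : vel a b N z = I * z * PP (RingHom.id ℂ) N a b z z := by
  unfold vel
  rw [(lau_hasDerivAt hz).deriv]

lemma conj_circle {z : ℂ} (hz : ‖z‖ = 1) : conj z = z⁻¹ := by
  rw [Complex.inv_def, Complex.normSq_eq_norm_sq, hz]; simp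

lemma conj_lau {z : ℂ} (hz : ‖z‖ = 1) : conj (lau a b N z) =
    XX (RingHom.id ℂ) N (conj a) (fun k => conj (b k)) z⁻¹ := by
  unfold lau XX
  rw [map_add, map_mul, map_sum, conj_circle hz]
  simp only [RingHom.id_apply, map_mul, map_pow, map_inv₀, conj_circle hz]

lemma conj_PP {z : ℂ} (hz : ‖z‖ = 1) : conj (PP (RingHom.id ℂ) N a b z z) =
    z ^ 2 * QQ (RingHom.id ℂ) N (conj a) (fun k => conj (b k)) z z := by
  have hz0 : z ≠ 0 := by rintro rfl; simp at hz
  unfold PP QQ SS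
  simp only [RingHom.id_apply, map_sub, map_mul, map_sum, map_pow, map_inv₀, conj_circle hz,
    inv_inv]
  field_simp

lemma PP_ne {z y : ℂ} (hz : z ≠ 0) (hy : y ≠ 0) (h : lau a b N z ≠ lau a b N y) :
    z ≠ y ∧ PP (RingHom.id ℂ) N a b z y ≠ 0 := by
  have h1 := XX_sub (RingHom.id ℂ) N a b hz hy
  rw [← lau_eq, ← lau_eq] at h1
  have h2 := sub_ne_zero.2 h
  rw [h1] at h2
  exact ⟨sub_ne_zero.1 (left_ne_zero_of_mul h2), right_ne_zero_of_mul h2⟩

lemma QQ_ne {z y : ℂ} (hz : ‖z‖ = 1) (hy : ‖y‖ = 1) (h : lau a b N z ≠ lau a b N y) :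
    QQ (RingHom.id ℂ) N (conj a) (fun k => conj (b k)) z y ≠ 0 := by
  have hz0 : z ≠ 0 := by rintro rfl; simp at hz
  have hy0 : y ≠ 0 := by rintro rfl; simp at hy
  have h1 := YY_sub (RingHom.id ℂ) N (conj a) (fun k => conj (b k)) hz0 hy0
  rw [← conj_lau hz, ← conj_lau hy, ← map_sub] at h1
  have h2 : conj (lau a b N z - lau a b N y) ≠ 0 := by
    rw [Ne, map_eq_zero]; exact sub_ne_zero.2 h
  rw [h1] at h2
  exact right_ne_zero_of_mul (neg_ne_zero.1 h2)

/-- The algebraic form of the reflection law. -/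
lemma BilliardPolygon.alg {z : ℤ → ℂ} (H : BilliardPolygon a b N n z) (j : ℤ) :
    QQ (RingHom.id ℂ) N (conj a) (fun k => conj (b k)) (z (j - 1)) (z j) *
      QQ (RingHom.id ℂ) N (conj a) (fun k => conj (b k)) (z j) (z (j + 1)) *
      PP (RingHom.id ℂ) N a b (z j) (z j) ^ 2 =
    PP (RingHom.id ℂ) N a b (z (j - 1)) (z j) * PP (RingHom.id ℂ) N a b (z j) (z (j + 1)) *
      QQ (RingHom.id ℂ) N (conj a) (fun k => conj (b k)) (z j) (z j) ^ 2 := by
  have hz0 : ∀ j, z j ≠ 0 := fun j h => by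
    have := H.norm j
    rw [h] at this
    simp at this
  have e1 := XX_sub (RingHom.id ℂ) N a b (hz0 j) (hz0 (j - 1))
  have e2 := XX_sub (RingHom.id ℂ) N a b (hz0 (j + 1)) (hz0 j)
  have f1 := YY_sub (RingHom.id ℂ) N (conj a) (fun k => conj (b k)) (hz0 j) (hz0 (j - 1))
  have f2 := YY_sub (RingHom.id ℂ) N (conj a) (fun k => conj (b k)) (hz0 (j + 1)) (hz0 j)
  rw [← lau_eq, ← lau_eq] at e1 e2
  rw [← conj_lau (H.norm _), ← conj_lau (H.norm _), ← map_sub] at f1 f2
  have hne1 := H.ne (j - 1)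
  rw [sub_add_cancel] at hne1
  have d1 := (PP_ne (hz0 _) (hz0 _) hne1).1
  have d2 := (PP_ne (hz0 _) (hz0 _) (H.ne j)).1
  have hl := H.law j
  have hl2 : (lau a b N (z j) - lau a b N (z (j - 1))) *
      (lau a b N (z (j + 1)) - lau a b N (z j)) * conj (vel a b N (z j)) ^ 2 =
      conj (lau a b N (z j) - lau a b N (z (j - 1))) *
      conj (lau a b N (z (j + 1)) - lau a b N (z j)) * vel a b N (z j) ^ 2 := by
    have h := (Complex.conj_eq_iff_im.2 hl).symm
    rw [map_mul, map_mul, map_pow, Complex.conj_conj] at h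
    exact h
  rw [f1, f2, e1, e2, vel_eq (hz0 j), map_mul, map_mul, conj_PP (H.norm j), conj_I,
    conj_circle (H.norm j)] at hl2
  rw [PP_comm _ _ _ _ (z j) (z (j - 1)), QQ_comm _ _ _ _ (z j) (z (j - 1)),
    PP_comm _ _ _ _ (z (j + 1)) (z j), QQ_comm _ _ _ _ (z (j + 1)) (z j)] at hl2
  have hfac : (z j - z (j - 1)) * (z (j + 1) - z j) * z j ^ 2 ≠ 0 :=
    mul_ne_zero (mul_ne_zero (sub_ne_zero.2 d1) (sub_ne_zero.2 d2)) (pow_ne_zero _ (hz0 j))
  apply mul_left_cancel₀ hfac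
  have hI : I ^ 2 = -1 := I_sq
  have hz := hz0 j
  have e3 : (-I * (z j)⁻¹ * (z j ^ 2 * QQ (RingHom.id ℂ) N (conj a) (fun k => conj (b k)) (z j) (z j)))
      = -I * z j * QQ (RingHom.id ℂ) N (conj a) (fun k => conj (b k)) (z j) (z j) := by
    field_simp
  rw [e3] at hl2
  linear_combination hl2 - ((z j - z (j - 1)) * (z (j + 1) - z j) * z j ^ 2 * (
    PP (RingHom.id ℂ) N a b (z (j - 1)) (z j) * PP (RingHom.id ℂ) N a b (z j) (z (j + 1)) *
      QQ (RingHom.id ℂ) N (conj a) (fun k => conj (b k)) (z j) (z j) ^ 2 -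
    QQ (RingHom.id ℂ) N (conj a) (fun k => conj (b k)) (z (j - 1)) (z j) *
      QQ (RingHom.id ℂ) N (conj a) (fun k => conj (b k)) (z j) (z (j + 1)) *
      PP (RingHom.id ℂ) N a b (z j) (z j) ^ 2)) * hI

/-- Evaluation of germs. -/
lemma gm_sum {ι : Type*} (s : Finset ι) (f : ι → ℕ → ℂ) :
    ∑ i ∈ s, gm (f i) = gm (fun m => ∑ i ∈ s, f i m) := by
  rw [← map_sum]
  congr 1
  ext m
  rw [Finset.sum_apply]

lemma gm_inv (f : ℕ → ℂ) : (gm f)⁻¹ = gm (fun m => (f m)⁻¹) := rfl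

lemma SS_gm (b : ℕ → ℂ) (f g : ℕ → ℂ) : SS cst N b (gm f) (gm g) =
    gm (fun m => SS (RingHom.id ℂ) N b (f m) (g m)) := by
  unfold SS
  rw [← gm_sum]
  refine sum_congr rfl fun k _ => ?_
  have h1 : ∑ i ∈ range k, gm f ^ i * gm g ^ (k - 1 - i) =
      gm (fun m => ∑ i ∈ range k, f m ^ i * g m ^ (k - 1 - i)) := by
    rw [← gm_sum]
    refine sum_congr rfl fun i _ => ?_
    rw [← map_pow, ← map_pow, ← map_mul]
    rfl
  rw [h1, Pool.Agent.H719R2.PIR.cst_eq, ← map_mul]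
  rfl

lemma PP_gm (a : ℂ) (b : ℕ → ℂ) (f g : ℕ → ℂ) : PP cst N a b (gm f) (gm g) =
    gm (fun m => PP (RingHom.id ℂ) N a b (f m) (g m)) := by
  unfold PP
  rw [gm_inv, gm_inv, SS_gm, Pool.Agent.H719R2.PIR.cst_eq, ← map_mul, ← map_mul, ← map_sub]
  rfl

lemma QQ_gm (a : ℂ) (b : ℕ → ℂ) (f g : ℕ → ℂ) : QQ cst N a b (gm f) (gm g) =
    gm (fun m => QQ (RingHom.id ℂ) N a b (f m) (g m)) := by
  unfold QQ
  rw [gm_inv, gm_inv, SS_gm, Pool.Agent.H719R2.PIR.cst_eq, ← map_mul, ← map_mul, ← map_sub]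
  rfl

/-- A sequence of polygons gives a chain over the field of germs. -/
theorem chain_gm (hn : 0 < n) {z : ℕ → ℤ → ℂ} (H : ∀ m, BilliardPolygon a b N n (z m)) :
    Chain cst N a b (conj a) (fun k => conj (b k)) n (fun j => gm (fun m => z m j)) := by
  have hz0 : ∀ m j, z m j ≠ 0 := fun m j h => by
    have := (H m).norm j
    rw [h] at this
    simp at this
  refine ⟨hn, ?_, ?_, ?_, ?_, ?_, ?_, ?_⟩
  · intro j
    congr 1
    ext m
    exact (H m).per j
  · exact fun j => gm_ne_zero fun m => hz0 m j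
  · intro j
    rw [PP_gm]
    exact gm_ne_zero fun m => (PP_ne (hz0 m _) (hz0 m _) ((H m).ne j).symm).2
  · intro j
    rw [QQ_gm]
    exact gm_ne_zero fun m => QQ_ne ((H m).norm _) ((H m).norm _) ((H m).ne j).symm
  · intro j
    rw [PP_gm]
    refine gm_ne_zero fun m h => ?_
    have := (H m).reg j
    rw [vel_eq (hz0 m j), h, mul_zero] at this
    exact this rfl
  · intro j
    rw [QQ_gm]
    refine gm_ne_zero fun m h => ?_
    have := (H m).reg j
    have h2 := conj_PP (N := N) (a := a) (b := b) ((H m).norm j)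
    rw [h, mul_zero, map_eq_zero] at h2
    rw [vel_eq (hz0 m j), h2, mul_zero] at this
    exact this rfl
  · intro j
    rw [QQ_gm, QQ_gm, QQ_gm, PP_gm, PP_gm, PP_gm, ← map_pow, ← map_pow, ← map_mul, ← map_mul,
      ← map_mul, ← map_mul]
    congr 1
    ext m
    exact (H m).alg j

theorem no_sequence (hN : 2 ≤ N) (ha : a ≠ 0) (hb : b N ≠ 0) (hn : 0 < n) {z : ℕ → ℤ → ℂ}
    (H : ∀ m, BilliardPolygon a b N n (z m)) (hinj : Function.Injective fun m => z m 0) :
    False := by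
  have hC := chain_gm hn H
  have ha' : conj a ≠ 0 := by rw [Ne, map_eq_zero]; exact ha
  have hb' : conj (b N) ≠ 0 := by rw [Ne, map_eq_zero]; exact hb
  have hr := chain_ratio hN ha ha' hb hb' hC
  choose l hl using hr
  have ht : ∀ c, gm (fun m => z m 0) ≠ cst c := by
    intro c hc
    rw [Pool.Agent.H719R2.PIR.cst_eq, gm_eq] at hc
    have hinf : Set.Infinite {m | z m 0 = c} := by
      intro hfin
      have h1 : {m | z m 0 = c}ᶜ ∈ hyperfilter ℕ := hfin.compl_mem_hyperfilter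
      have h2 := hc.and h1
      obtain ⟨m, h3, h4⟩ := h2.exists
      exact h4 h3
    obtain ⟨m, hm⟩ := hinf.nonempty
    obtain ⟨k, hk, hkm⟩ := (hinf.sdiff (Set.finite_singleton m)).nonempty
    exact hkm (hinj (hk.trans hm.symm))
  have hconst := chain_const hN ha ha' hb hb' hC ht hl
  -- relations between points
  have hpt : ∀ j, ∀ᶠ m in (hyperfilter ℕ : Filter ℕ), z m j = l j * z m 0 := by
    intro j
    have h := hl j
    rw [Pool.Agent.H719R2.PIR.cst_eq, ← map_mul, gm_eq] at h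
    exact h
  have hnorm : ∀ j, ‖l j‖ = 1 := by
    intro j
    obtain ⟨m, hm⟩ := (hpt j).exists
    have h1 := (H m).norm j
    rw [hm, norm_mul, (H m).norm 0, mul_one] at h1
    exact h1
  have hstep : l 0 / l 1 = 1 := by
    have h1 := hconst 0
    have e1 : ‖l 0 / l (0 - 1)‖ = 1 := by rw [norm_div, hnorm, hnorm]; norm_num
    have e2 : ‖l 0 / l (0 + 1)‖ = 1 := by rw [norm_div, hnorm, hnorm]; norm_num
    have g1 := GG_norm_le (N := N) e1.le
    have g2 := GG_norm_le (N := N) e2.le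
    have h2 := congrArg norm h1
    rw [norm_mul, norm_pow, Complex.norm_natCast] at h2
    have hNpos : (0 : ℝ) < N := by exact_mod_cast (by omega : 0 < N)
    have h3 : (N : ℝ) ≤ ‖Pool.Agent.H719R3.BK.GG N (l 0 / l (0 + 1))‖ := by
      by_contra hcon
      push Not at hcon
      have h4 : ‖Pool.Agent.H719R3.BK.GG N (l 0 / l (0 - 1))‖ *
          ‖Pool.Agent.H719R3.BK.GG N (l 0 / l (0 + 1))‖ < N * N :=
        calc _ ≤ (N : ℝ) * ‖Pool.Agent.H719R3.BK.GG N (l 0 / l (0 + 1))‖ := by gcongr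
          _ < N * N := by gcongr
      rw [h2] at h4
      nlinarith
    exact GG_norm_eq hN e2 h3
  have hl1 : l 1 ≠ 0 := by
    intro h
    have := hnorm 1
    rw [h, norm_zero] at this
    norm_num at this
  have h01 : l 0 = l 1 := (div_eq_one_iff_eq hl1).1 hstep
  obtain ⟨m, hm0, hm1⟩ := ((hpt 0).and (hpt 1)).exists
  have := (H m).ne 0
  rw [zero_add, hm1, ← h01, ← hm0] at this
  exact this rfl

/-- **Finiteness of billiard polygons.** -/
theorem finite_polygons (hN : 2 ≤ N) (ha : a ≠ 0) (hb : b N ≠ 0) (n : ℕ) (hn : 0 < n) :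
    {z : ℤ → ℂ | BilliardPolygon a b N n z}.Finite := by
  by_contra hinf
  -- some coordinate takes infinitely many values
  have hex : ∃ j : ℤ, ((fun z : ℤ → ℂ => z j) '' {z | BilliardPolygon a b N n z}).Infinite := by
    by_contra hcon
    push Not at hcon
    apply hinf
    have hfin : (Set.pi (Set.univ : Set (Fin n)) fun j : Fin n =>
        ((fun z : ℤ → ℂ => z (j : ℤ)) '' {z | BilliardPolygon a b N n z})).Finite :=
      Set.Finite.pi fun j => hcon _
    refine Set.Finite.of_injOn (f := fun z : ℤ → ℂ => fun j : Fin n => z (j : ℤ))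
      (t := Set.pi (Set.univ : Set (Fin n)) fun j : Fin n =>
        ((fun z : ℤ → ℂ => z (j : ℤ)) '' {z | BilliardPolygon a b N n z})) ?_ ?_ hfin
    · intro z hz j _
      exact ⟨z, hz, rfl⟩
    · intro z hz y hy h
      have hper : ∀ {z : ℤ → ℂ}, BilliardPolygon a b N n z → Function.Periodic z (n : ℤ) :=
        fun hz j => hz.per j
      funext i
      have hn' : (0 : ℤ) < n := by exact_mod_cast hn
      have h3 := Int.emod_nonneg i hn'.ne'
      have h4 := Int.emod_lt_of_pos i hn'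
      obtain ⟨m, hm⟩ := Int.eq_ofNat_of_zero_le h3
      have h5 : ∀ {z : ℤ → ℂ}, BilliardPolygon a b N n z → z i = z m := by
        intro z hz
        rw [← hm, Int.emod_def, mul_comm]
        exact ((hper hz).sub_zsmul_eq (i / n)).symm.trans (by rw [smul_eq_mul])
      rw [h5 hz, h5 hy]
      exact congrFun h ⟨m, by omega⟩
  obtain ⟨j, hj⟩ := hex
  -- shift
  obtain ⟨f⟩ : Nonempty (ℕ ↪ ((fun z : ℤ → ℂ => z j) '' {z | BilliardPolygon a b N n z})) :=
    ⟨hj.natEmbedding⟩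
  choose z hz hzj using fun m => (f m).2
  refine no_sequence hN ha hb hn (z := fun m i => z m (i + j)) (fun m => ?_) ?_
  · have H := hz m
    refine ⟨fun i => ?_, fun i => H.norm _, fun i => ?_, fun i => H.reg _, fun i => ?_⟩
    · rw [show i + (n : ℤ) + j = i + j + n by ring]; exact H.per _
    · rw [show i + 1 + j = i + j + 1 by ring]; exact H.ne _
    · rw [show i + 1 + j = i + j + 1 by ring, show i - 1 + j = i + j - 1 by ring]
      exact H.law _
  · intro m k hmk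
    simp only [zero_add] at hmk
    have h1 : (f m : ℂ) = f k := by rw [← hzj m, ← hzj k]; exact hmk
    exact f.injective (Subtype.ext h1)

end Pool.Agent.H719R3.BK
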