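import Pool.Agent.H719R3.BK.Val

/-!
# The trap near zero and infinity
-/

open Finset

namespace Pool.Agent.H719R3.BK

variable {K : Type*} [Field K] {φ : ℂ →+* K} {N : ℕ} {a : ℂ} {b : ℕ → ℂ} {a' : ℂ} {b' : ℕ → ℂ}
  {n : ℕ} {t : ℤ → K} {Γ₀ : Type*} [LinearOrderedCommGroupWithZero Γ₀] {w : Valuation K Γ₀}

/-- The size of the derivative of `Y` near infinity. -/
lemma QQ_diag (hφ : ∀ c : ℂ, c ≠ 0 → w (φ c) = 1) (hN : 2 ≤ N) (a' : ℂ) {b' : ℕ → ℂ}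
    (hb' : b' N ≠ 0) {x : K} (hx : 1 < w x) : w (QQ φ N a' b' x x) = w x ^ (N - 1) := by
  have h0 := SS_lead (φ := φ) hφ hN b' hx le_rfl le_rfl
  have h1 : ∑ i ∈ range N, x ^ i * x ^ (N - 1 - i) = N * x ^ (N - 1) := by
    rw [sum_congr rfl (g := fun _ => x ^ (N - 1))]
    · rw [sum_const, card_range, nsmul_eq_mul]
    · intro i hi
      have := mem_range.1 hi
      rw [← pow_add]; congr 1; omega
  have h2 : w ((N : K)) = 1 := by
    have := hφ (N : ℂ) (by exact_mod_cast (by omega : N ≠ 0))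
    rwa [map_natCast] at this
  have h3 : w (φ (b' N) * ∑ i ∈ range N, x ^ i * x ^ (N - 1 - i)) = w x ^ (N - 1) := by
    rw [map_mul, hφ _ hb', one_mul, h1, map_mul, h2, one_mul, map_pow]
  have h4 : w (SS φ N b' x x) = w x ^ (N - 1) := wadd_eq h0 h3
  have hlt : w (φ a' * (x⁻¹ * x⁻¹)) < w x ^ (N - 1) := by
    calc w (φ a' * (x⁻¹ * x⁻¹)) ≤ 1 * 1 := by
          rw [map_mul, map_mul, map_inv₀]
          refine mul_le_mul' (wphi_le hφ _) (mul_le_one' ?_ ?_) <;>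
          exact inv_le_one_of_one_le₀ hx.le
      _ = 1 := one_mul _
      _ < w x ^ (N - 1) := one_lt_pow₀ hx (by omega)
  unfold QQ
  rw [← Valuation.map_neg, neg_sub]
  rw [Valuation.map_sub_eq_of_lt_left]
  · exact h4
  · rw [h4]; exact hlt

/-- The size of the derivative of `X` near infinity. -/
lemma PP_diag (hφ : ∀ c : ℂ, c ≠ 0 → w (φ c) = 1) (hN : 2 ≤ N) {a : ℂ} (ha : a ≠ 0) (b : ℕ → ℂ)
    {x : K} (hx : 1 < w x) : w (PP φ N a b x x) = 1 :=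
  wadd_eq (PP_lead hφ hN a b hx (by
    calc (1 : Γ₀) < w x := hx
      _ ≤ w x ^ N * w x := le_mul_of_one_le_left' (one_le_pow₀ hx.le))) (hφ a ha)

/-- Where an edge which is nearly horizontal can lead from a vertex near zero. -/
lemma trap_next (hφ : ∀ c : ℂ, c ≠ 0 → w (φ c) = 1) (hN : 2 ≤ N) (b : ℕ → ℂ)
    (ha' : a' ≠ 0) (hb' : b' N ≠ 0) {ρ : Γ₀} (hρ : 1 < ρ) {x y : K} (hx : x ≠ 0) (hy : y ≠ 0)
    (hx1 : (w x)⁻¹ ≤ ρ) (hy1 : w y ≤ ρ) (hy2 : (w y)⁻¹ ≤ ρ) (hx0 : w x < 1)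
    (hQ : QQ φ N a' b' x y ≠ 0)
    (h : ρ ^ N * w (QQ φ N a' b' x y) ≤ w (PP φ N a b x y)) :
    1 < w y ∧ w y ^ N = (w x)⁻¹ := by
  have hwx : 0 < w x := zero_lt_iff.2 ((Valuation.ne_zero_iff w).2 hx)
  have hwy : 0 < w y := zero_lt_iff.2 ((Valuation.ne_zero_iff w).2 hy)
  have hwQ : 0 < w (QQ φ N a' b' x y) := zero_lt_iff.2 ((Valuation.ne_zero_iff w).2 hQ)
  have hρ0 : 0 < ρ := lt_trans zero_lt_one hρ
  have hr : 1 < (w x)⁻¹ := (one_lt_inv₀ hwx).2 hx0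
  by_cases hy0 : 1 < w y
  · refine ⟨hy0, ?_⟩
    by_contra hne
    -- size of P
    have hS : w (SS φ N b x⁻¹ y⁻¹) ≤ (w x)⁻¹ ^ (N - 1) := by
      apply SS_le hφ b hr.le
      · rw [map_inv₀]
      · rw [map_inv₀]
        exact (inv_le_one_of_one_le₀ hy0.le).trans hr.le
    have hP : w (PP φ N a b x y) * w y ≤ ρ ^ N := by
      unfold PP
      have h1 : (φ a - x⁻¹ * y⁻¹ * SS φ N b x⁻¹ y⁻¹) * y =
          φ a * y - x⁻¹ * SS φ N b x⁻¹ y⁻¹ := by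
        field_simp
      rw [← map_mul, h1]
      refine Valuation.map_sub_le w ?_ ?_
      · rw [map_mul]
        calc w (φ a) * w y ≤ 1 * ρ := mul_le_mul' (wphi_le hφ _) hy1
          _ = ρ := one_mul _
          _ ≤ ρ ^ N := le_self_pow₀ hρ.le (by omega)
      · rw [map_mul, map_inv₀]
        calc (w x)⁻¹ * w (SS φ N b x⁻¹ y⁻¹) ≤ (w x)⁻¹ * (w x)⁻¹ ^ (N - 1) := by gcongr
          _ = (w x)⁻¹ ^ N := by
              rw [← pow_succ']; congr 1; omega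
          _ ≤ ρ ^ N := pow_le_pow_left₀ zero_le hx1 _
    have hQ' : 1 < w (QQ φ N a' b' x y) * w y := by
      have h1 : QQ φ N a' b' x y * y = φ a' * x⁻¹ - SS φ N b' x y * y := by
        unfold QQ; field_simp
      have h2 : w (φ a' * x⁻¹) = (w x)⁻¹ := by rw [map_mul, hφ _ ha', one_mul, map_inv₀]
      have h3 : w (SS φ N b' x y * y) = w y ^ N := by
        rw [map_mul, SS_eq hφ hN hb' hy0 (hx0.trans hy0), ← pow_succ]
        congr 1; omega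
      rw [← map_mul, h1]
      rcases lt_or_gt_of_ne hne with h4 | h4
      · rw [Valuation.map_sub_eq_of_lt_left _ (by rw [h2, h3]; exact h4), h2]
        exact hr
      · rw [Valuation.map_sub_eq_of_lt_right _ (by rw [h2, h3]; exact h4), h3]
        exact one_lt_pow₀ hy0 (by omega)
    have h5 : ρ ^ N * w (QQ φ N a' b' x y) * w y ≤ ρ ^ N :=
      (mul_le_mul_left h (w y)).trans hP
    have h6 : ρ ^ N * 1 < ρ ^ N * (w (QQ φ N a' b' x y) * w y) :=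
      mul_lt_mul_of_pos_left hQ' (pow_pos hρ0 _)
    rw [mul_one, ← mul_assoc] at h6
    exact absurd h5 (not_le.2 h6)
  · exfalso
    push Not at hy0
    have hs : 1 ≤ (w y)⁻¹ := (one_le_inv₀ hwy).2 hy0
    have hQ' : w (QQ φ N a' b' x y) = (w x)⁻¹ * (w y)⁻¹ := by
      unfold QQ
      have h2 : w (φ a' * (x⁻¹ * y⁻¹)) = (w x)⁻¹ * (w y)⁻¹ := by
        rw [map_mul, hφ _ ha', one_mul, map_mul, map_inv₀, map_inv₀]
      rw [Valuation.map_sub_eq_of_lt_left _, h2]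
      rw [h2]
      calc w (SS φ N b' x y) ≤ 1 ^ (N - 1) := SS_le hφ b' le_rfl hx0.le hy0
        _ = 1 := one_pow _
        _ < (w x)⁻¹ := hr
        _ ≤ (w x)⁻¹ * (w y)⁻¹ := le_mul_of_one_le_right' hs
    have hP : w (PP φ N a b x y) ≤ ρ ^ (N - 1) * w (QQ φ N a' b' x y) := by
      rw [hQ']
      unfold PP
      refine Valuation.map_sub_le w ?_ ?_
      · refine (wphi_le hφ _).trans ?_
        exact one_le_mul (one_le_pow₀ hρ.le) (one_le_mul hr.le hs)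
      · rw [map_mul, map_mul, map_inv₀, map_inv₀, mul_comm]
        gcongr
        exact SS_le hφ b hρ.le (by rw [map_inv₀]; exact hx1) (by rw [map_inv₀]; exact hy2)
    have h5 := h.trans hP
    have h6 : ρ ^ (N - 1) * w (QQ φ N a' b' x y) < ρ ^ N * w (QQ φ N a' b' x y) := by
      apply mul_lt_mul_of_pos_right _ hwQ
      exact pow_lt_pow_right₀ hρ (by omega)
    exact absurd h5 (not_le.2 h6)

/-- The trap condition at the vertex `i`. -/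
def Trapped (φ : ℂ →+* K) (w : Valuation K Γ₀) (N : ℕ) (a : ℂ) (b : ℕ → ℂ) (a' : ℂ) (b' : ℕ → ℂ)
    (t : ℤ → K) (ρ : Γ₀) (i : ℤ) : Prop :=
  (w (t i) < 1 ∧ ρ ^ N * w (QQ φ N a' b' (t i) (t (i + 1))) ≤ w (PP φ N a b (t i) (t (i + 1)))) ∨
  (1 < w (t i) ∧ ρ ^ N * w (PP φ N a b (t i) (t (i + 1))) ≤ w (QQ φ N a' b' (t i) (t (i + 1))))

/-- Both signs of the size. -/
def mag (w : Valuation K Γ₀) (x : K) : Γ₀ := max (w x) (w x)⁻¹

lemma trap_step_aux (hφ : ∀ c : ℂ, c ≠ 0 → w (φ c) = 1) (hN : 2 ≤ N) (ha : a ≠ 0) (ha' : a' ≠ 0)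
    (hb' : b' N ≠ 0) (H : Chain φ N a b a' b' n t) {ρ : Γ₀} (hρ : 1 < ρ)
    (hB : ∀ j, w (t j) ≤ ρ ∧ (w (t j))⁻¹ ≤ ρ) {i : ℤ} (h0 : w (t i) < 1)
    (h : ρ ^ N * w (QQ φ N a' b' (t i) (t (i + 1))) ≤ w (PP φ N a b (t i) (t (i + 1)))) :
    (1 < w (t (i + 1)) ∧ ρ ^ N * w (PP φ N a b (t (i + 1)) (t (i + 1 + 1))) ≤
      w (QQ φ N a' b' (t (i + 1)) (t (i + 1 + 1)))) ∧ mag w (t (i + 1)) < mag w (t i) := by
  obtain ⟨h1, h2⟩ := trap_next hφ hN b ha' hb' hρ (H.ne i) (H.ne (i + 1)) (hB i).2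
    (hB (i + 1)).1 (hB (i + 1)).2 h0 (H.Q0 i) h
  have hwQ : 0 < w (QQ φ N a' b' (t i) (t (i + 1))) :=
    zero_lt_iff.2 ((Valuation.ne_zero_iff w).2 (H.Q0 i))
  refine ⟨⟨h1, ?_⟩, ?_⟩
  · have hl := congrArg w (H.law (i + 1))
    rw [add_sub_cancel_right] at hl
    simp only [map_mul, map_pow] at hl
    rw [PP_diag hφ hN ha b h1, QQ_diag hφ hN a' hb' h1, one_pow, mul_one] at hl
    set q₀ := w (QQ φ N a' b' (t i) (t (i + 1)))
    set p₀ := w (PP φ N a b (t i) (t (i + 1)))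
    set q₁ := w (QQ φ N a' b' (t (i + 1)) (t (i + 1 + 1)))
    set p₁ := w (PP φ N a b (t (i + 1)) (t (i + 1 + 1)))
    have h3 : q₀ * (ρ ^ N * p₁) ≤ q₀ * q₁ := by
      rw [hl]
      calc q₀ * (ρ ^ N * p₁) = (ρ ^ N * q₀) * p₁ := by ac_rfl
        _ ≤ p₀ * p₁ := by gcongr
        _ ≤ p₀ * p₁ * (w (t (i + 1)) ^ (N - 1)) ^ 2 :=
            le_mul_of_one_le_right' (one_le_pow₀ (one_le_pow₀ h1.le))
    exact le_of_mul_le_mul_left h3 hwQ
  · unfold mag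
    have h3 : 1 < (w (t i))⁻¹ :=
      (one_lt_inv₀ (zero_lt_iff.2 ((Valuation.ne_zero_iff w).2 (H.ne i)))).2 h0
    rw [max_eq_left ((inv_le_one_of_one_le₀ h1.le).trans h1.le), max_eq_right (h0.le.trans h3.le)]
    rw [← h2]
    calc w (t (i + 1)) = w (t (i + 1)) ^ 1 := (pow_one _).symm
      _ < w (t (i + 1)) ^ N := pow_lt_pow_right₀ h1 (by omega)

lemma mag_inv (w : Valuation K Γ₀) (x : K) : mag w x⁻¹ = mag w x := by
  unfold mag
  rw [map_inv₀, inv_inv, max_comm]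

lemma trap_step (hφ : ∀ c : ℂ, c ≠ 0 → w (φ c) = 1) (hN : 2 ≤ N) (ha : a ≠ 0) (ha' : a' ≠ 0)
    (hb : b N ≠ 0) (hb' : b' N ≠ 0) (H : Chain φ N a b a' b' n t) {ρ : Γ₀} (hρ : 1 < ρ)
    (hB : ∀ j, w (t j) ≤ ρ ∧ (w (t j))⁻¹ ≤ ρ) {i : ℤ}
    (h : Trapped φ w N a b a' b' t ρ i) :
    Trapped φ w N a b a' b' t ρ (i + 1) ∧ mag w (t (i + 1)) < mag w (t i) := by
  rcases h with ⟨h0, h⟩ | ⟨h0, h⟩
  · obtain ⟨h1, h2⟩ := trap_step_aux hφ hN ha ha' hb' H hρ hB h0 h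
    exact ⟨Or.inr h1, h2⟩
  · have hB' : ∀ j, w ((t j)⁻¹) ≤ ρ ∧ (w ((t j)⁻¹))⁻¹ ≤ ρ := fun j => by
      rw [map_inv₀, inv_inv]; exact (hB j).symm
    have hpos : ∀ j k, (0 : Γ₀) < w (t j * t k) := fun j k =>
      zero_lt_iff.2 ((Valuation.ne_zero_iff w).2 (mul_ne_zero (H.ne j) (H.ne k)))
    have key := trap_step_aux hφ hN ha' ha hb H.inv hρ hB' (i := i)
      (by rw [map_inv₀]; exact inv_lt_one_of_one_lt₀ h0)
      (by
        rw [PP_inv _ _ _ _ (H.ne _) (H.ne _), QQ_inv _ _ _ _ (H.ne _) (H.ne _), map_mul w (_ * _),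
          map_mul w (_ * _)]
        calc ρ ^ N * (w (t i * t (i + 1)) * w (PP φ N a b (t i) (t (i + 1))))
            = w (t i * t (i + 1)) * (ρ ^ N * w (PP φ N a b (t i) (t (i + 1)))) := by ac_rfl
          _ ≤ _ := by gcongr)
    obtain ⟨⟨h1, h3⟩, h2⟩ := key
    rw [mag_inv, mag_inv] at h2
    refine ⟨Or.inl ⟨?_, ?_⟩, h2⟩
    · rw [map_inv₀] at h1
      have := (one_lt_inv₀ (zero_lt_iff.2 ((Valuation.ne_zero_iff w).2 (H.ne (i + 1))))).1 h1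
      exact this
    · rw [PP_inv _ _ _ _ (H.ne _) (H.ne _), QQ_inv _ _ _ _ (H.ne _) (H.ne _), map_mul w (_ * _),
          map_mul w (_ * _)] at h3
      have h4 : w (t (i + 1) * t (i + 1 + 1)) *
          (ρ ^ N * w (QQ φ N a' b' (t (i + 1)) (t (i + 1 + 1)))) ≤
          w (t (i + 1) * t (i + 1 + 1)) * w (PP φ N a b (t (i + 1)) (t (i + 1 + 1))) := by
        calc _ = ρ ^ N * (w (t (i + 1) * t (i + 1 + 1)) *
            w (QQ φ N a' b' (t (i + 1)) (t (i + 1 + 1)))) := by ac_rfl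
          _ ≤ _ := h3
      exact le_of_mul_le_mul_left h4 (hpos _ _)

theorem no_trap (hφ : ∀ c : ℂ, c ≠ 0 → w (φ c) = 1) (hN : 2 ≤ N) (ha : a ≠ 0) (ha' : a' ≠ 0)
    (hb : b N ≠ 0) (hb' : b' N ≠ 0) (H : Chain φ N a b a' b' n t) {ρ : Γ₀} (hρ : 1 < ρ)
    (hB : ∀ j, w (t j) ≤ ρ ∧ (w (t j))⁻¹ ≤ ρ) {i : ℤ}
    (h : Trapped φ w N a b a' b' t ρ i) : False := by
  have key : ∀ m : ℕ, 0 < m → Trapped φ w N a b a' b' t ρ (i + m) ∧
      mag w (t (i + m)) < mag w (t i) := by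
    intro m
    induction m with
    | zero => intro h; exact absurd h (lt_irrefl _)
    | succ m ih =>
      intro _
      push_cast
      rw [← add_assoc]
      rcases Nat.eq_zero_or_pos m with h0 | h0
      · subst h0
        simp only [Nat.cast_zero, add_zero]
        exact trap_step hφ hN ha ha' hb hb' H hρ hB h
      · obtain ⟨h1, h2⟩ := ih h0
        obtain ⟨h3, h4⟩ := trap_step hφ hN ha ha' hb hb' H hρ hB h1
        exact ⟨h3, h4.trans h2⟩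
  have := (key n H.hn).2
  rw [H.per i] at this
  exact lt_irrefl _ this

/-- Start of the trap. -/
theorem start_trap (hφ : ∀ c : ℂ, c ≠ 0 → w (φ c) = 1) (hN : 2 ≤ N) (ha : a ≠ 0) (ha' : a' ≠ 0)
    (hb : b N ≠ 0) (hb' : b' N ≠ 0) (H : Chain φ N a b a' b' n t) {ρ : Γ₀} (hρ : 1 < ρ)
    (hB : ∀ j, w (t j) ≤ ρ ∧ (w (t j))⁻¹ ≤ ρ) {i : ℤ} (h0 : w (t i) = ρ)
    (h1 : w (t (i + 1)) ^ N * ρ = 1) : False := by
  refine no_trap hφ hN ha ha' hb hb' H hρ hB (i := i + 1) (Or.inl ?_)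
  have hρ0 : 0 < ρ := lt_trans zero_lt_one hρ
  have hy0 : 0 < w (t (i + 1)) := zero_lt_iff.2 ((Valuation.ne_zero_iff w).2 (H.ne _))
  set y := t (i + 1) with hy
  set r : Γ₀ := (w y)⁻¹ with hr
  have hrN : r ^ N = ρ := by
    rw [hr, inv_pow]
    exact inv_eq_of_mul_eq_one_right h1
  have hr1 : 1 < r := by
    by_contra hcon
    push Not at hcon
    have := pow_le_one₀ (n := N) zero_le hcon
    rw [hrN] at this
    exact absurd this (not_le.2 hρ)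
  have hy1 : w y < 1 := (one_lt_inv₀ hy0).1 hr1
  refine ⟨hy1, ?_⟩
  have hne := H.ne (i + 1)
  rw [← hy] at hne
  have hyi : 1 < w y⁻¹ := by rw [map_inv₀]; exact hr1
  -- diagonal sizes
  have hPd : w (PP φ N a b y y) = r ^ (N + 1) := by
    have h := PP_inv φ N a b (x := y⁻¹) (y := y⁻¹) (inv_ne_zero hne) (inv_ne_zero hne)
    rw [inv_inv] at h
    rw [h, map_mul, map_mul, QQ_diag hφ hN a hb hyi, map_inv₀, ← hr]
    obtain ⟨m, rfl⟩ : ∃ m, N = m + 1 := ⟨N - 1, by omega⟩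
    rw [Nat.add_sub_cancel, pow_succ, pow_succ]
    ac_rfl
  have hQd : w (QQ φ N a' b' y y) = r ^ 2 := by
    have h := QQ_inv φ N a' b' (x := y⁻¹) (y := y⁻¹) (inv_ne_zero hne) (inv_ne_zero hne)
    rw [inv_inv] at h
    rw [h, map_mul, map_mul, PP_diag hφ hN ha' b' hyi, map_inv₀, ← hr, mul_one, sq]
  have hx1 : 1 < w (t i) := by rw [h0]; exact hρ
  have hxy : w y < w (t i) := hy1.trans hx1
  have hrρ : r ≤ ρ := (hB (i + 1)).2
  have hQ0 : w (QQ φ N a' b' (t i) y) = ρ ^ (N - 1) := by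
    rw [QQ_comm]
    unfold QQ
    have h2 : w (SS φ N b' y (t i)) = ρ ^ (N - 1) := by
      rw [SS_eq hφ hN hb' hx1 hxy, h0]
    rw [← Valuation.map_neg, neg_sub, Valuation.map_sub_eq_of_lt_left _, h2]
    rw [h2]
    calc w (φ a' * (y⁻¹ * (t i)⁻¹)) ≤ 1 * (r * ρ⁻¹) := by
          rw [map_mul, map_mul, map_inv₀, map_inv₀, h0]
          exact mul_le_mul' (wphi_le hφ _) le_rfl
      _ = r * ρ⁻¹ := one_mul _
      _ ≤ ρ * ρ⁻¹ := by gcongr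
      _ = 1 := mul_inv_cancel₀ hρ0.ne'
      _ < ρ ^ (N - 1) := one_lt_pow₀ hρ (by omega)
  have hP0 : w (PP φ N a b (t i) y) ≤ 1 := by
    rw [PP_comm]
    unfold PP
    refine Valuation.map_sub_le w (wphi_le hφ _) ?_
    rw [map_mul, map_mul, map_inv₀, map_inv₀, h0]
    calc (w y)⁻¹ * ρ⁻¹ * w (SS φ N b y⁻¹ (t i)⁻¹) ≤ r * ρ⁻¹ * r ^ (N - 1) := by
          gcongr
          apply SS_le hφ b hr1.le
          · rw [map_inv₀]
          · rw [map_inv₀]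
            exact (inv_le_one_of_one_le₀ hx1.le).trans hr1.le
      _ = r ^ N * ρ⁻¹ := by
          obtain ⟨m, rfl⟩ : ∃ m, N = m + 1 := ⟨N - 1, by omega⟩
          rw [Nat.add_sub_cancel, pow_succ]
          ac_rfl
      _ = 1 := by rw [hrN]; exact mul_inv_cancel₀ hρ0.ne'
  have hl := congrArg w (H.law (i + 1))
  rw [add_sub_cancel_right, ← hy] at hl
  simp only [map_mul, map_pow] at hl
  rw [hPd, hQd, hQ0] at hl
  set q₁ := w (QQ φ N a' b' y (t (i + 1 + 1)))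
  set p₁ := w (PP φ N a b y (t (i + 1 + 1)))
  have hr4 : 0 < r ^ 4 := pow_pos (lt_trans zero_lt_one hr1) _
  have h5 : r ^ 4 * (ρ ^ N * q₁) ≤ r ^ 4 * p₁ := by
    calc r ^ 4 * (ρ ^ N * q₁) = ρ ^ (N - 1) * q₁ * (ρ * r ^ 4) := by
          obtain ⟨m, rfl⟩ : ∃ m, N = m + 1 := ⟨N - 1, by omega⟩
          rw [Nat.add_sub_cancel, pow_succ ρ]
          ac_rfl
      _ ≤ ρ ^ (N - 1) * q₁ * (r ^ (N + 1)) ^ 2 := by
          gcongr
          rw [← hrN, ← pow_add, ← pow_mul]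
          exact pow_le_pow_right₀ hr1.le (by omega)
      _ = w (PP φ N a b (t i) y) * p₁ * (r ^ 2) ^ 2 := hl
      _ ≤ 1 * p₁ * (r ^ 2) ^ 2 := by gcongr
      _ = r ^ 4 * p₁ := by rw [one_mul, ← pow_mul, mul_comm]
  exact le_of_mul_le_mul_left h5 hr4

end Pool.Agent.H719R3.BK
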