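import Mathlib

/-!
# Billiards in curves with Laurent polynomial parametrisation: valuations

`K` is a field with a valuation `w` which is trivial on `ℂ`.  The curve is
`X = a t + ∑ b_k t^{-k}`, `Y = a' / t + ∑ b'_k t^k`; `PP` and `QQ` are (up to sign) the divided
differences of `X` and `Y`.
-/

open Finset

namespace Pool.Agent.H719R3.BK

variable {K : Type*} [Field K]

/-- Divided difference of `∑ b_k x^k`. -/
noncomputable def SS (φ : ℂ →+* K) (N : ℕ) (b : ℕ → ℂ) (x y : K) : K :=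
  ∑ k ∈ range (N + 1), φ (b k) * ∑ i ∈ range k, x ^ i * y ^ (k - 1 - i)

/-- Divided difference of `X`. -/
noncomputable def PP (φ : ℂ →+* K) (N : ℕ) (a : ℂ) (b : ℕ → ℂ) (x y : K) : K :=
  φ a - x⁻¹ * y⁻¹ * SS φ N b x⁻¹ y⁻¹

/-- Minus the divided difference of `Y`. -/
noncomputable def QQ (φ : ℂ →+* K) (N : ℕ) (a' : ℂ) (b' : ℕ → ℂ) (x y : K) : K :=
  φ a' * (x⁻¹ * y⁻¹) - SS φ N b' x y

/-- The curve. -/
noncomputable def XX (φ : ℂ →+* K) (N : ℕ) (a : ℂ) (b : ℕ → ℂ) (x : K) : K :=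
  φ a * x + ∑ k ∈ range (N + 1), φ (b k) * x⁻¹ ^ k

lemma SS_sub (φ : ℂ →+* K) (N : ℕ) (b : ℕ → ℂ) (x y : K) :
    SS φ N b x y * (x - y) = ∑ k ∈ range (N + 1), φ (b k) * x ^ k -
      ∑ k ∈ range (N + 1), φ (b k) * y ^ k := by
  unfold SS
  rw [sum_mul, ← sum_sub_distrib]
  refine sum_congr rfl fun k _ => ?_
  rw [mul_assoc, (Commute.all x y).geom_sum₂_mul k]
  ring

lemma XX_sub (φ : ℂ →+* K) (N : ℕ) (a : ℂ) (b : ℕ → ℂ) {x y : K} (hx : x ≠ 0) (hy : y ≠ 0) :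
    XX φ N a b x - XX φ N a b y = (x - y) * PP φ N a b x y := by
  have h := SS_sub φ N b x⁻¹ y⁻¹
  have h2 : x⁻¹ - y⁻¹ = -((x - y) * (x⁻¹ * y⁻¹)) := by field_simp; ring
  rw [h2] at h
  unfold XX PP
  have h3 : (x - y) * (φ a - x⁻¹ * y⁻¹ * SS φ N b x⁻¹ y⁻¹) =
    φ a * x - φ a * y + SS φ N b x⁻¹ y⁻¹ * (-((x - y) * (x⁻¹ * y⁻¹))) := by ring
  rw [h3, h]
  ring

lemma YY_sub (φ : ℂ →+* K) (N : ℕ) (a : ℂ) (b : ℕ → ℂ) {x y : K} (hx : x ≠ 0) (hy : y ≠ 0) :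
    XX φ N a b x⁻¹ - XX φ N a b y⁻¹ = -((x - y) * QQ φ N a b x y) := by
  rw [XX_sub φ N a b (inv_ne_zero hx) (inv_ne_zero hy)]
  unfold PP QQ
  rw [inv_inv, inv_inv]
  field_simp
  ring

lemma SS_comm (φ : ℂ →+* K) (N : ℕ) (b : ℕ → ℂ) (x y : K) : SS φ N b x y = SS φ N b y x := by
  unfold SS
  refine sum_congr rfl fun k _ => ?_
  rw [(Commute.all x y).geom_sum₂_comm]

lemma PP_comm (φ : ℂ →+* K) (N : ℕ) (a : ℂ) (b : ℕ → ℂ) (x y : K) :
    PP φ N a b x y = PP φ N a b y x := by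
  unfold PP
  rw [SS_comm, mul_comm x⁻¹ y⁻¹]

lemma QQ_comm (φ : ℂ →+* K) (N : ℕ) (a : ℂ) (b : ℕ → ℂ) (x y : K) :
    QQ φ N a b x y = QQ φ N a b y x := by
  unfold QQ
  rw [SS_comm, mul_comm x⁻¹ y⁻¹]

lemma PP_inv (φ : ℂ →+* K) (N : ℕ) (a : ℂ) (b : ℕ → ℂ) {x y : K} (hx : x ≠ 0) (hy : y ≠ 0) :
    PP φ N a b x⁻¹ y⁻¹ = x * y * QQ φ N a b x y := by
  unfold PP QQ
  rw [inv_inv, inv_inv]
  field_simp

lemma QQ_inv (φ : ℂ →+* K) (N : ℕ) (a : ℂ) (b : ℕ → ℂ) {x y : K} (hx : x ≠ 0) (hy : y ≠ 0) :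
    QQ φ N a b x⁻¹ y⁻¹ = x * y * PP φ N a b x y := by
  unfold PP QQ
  rw [inv_inv, inv_inv]
  field_simp

/-- A periodic billiard chain in the curve over `K`. -/
structure Chain (φ : ℂ →+* K) (N : ℕ) (a : ℂ) (b : ℕ → ℂ) (a' : ℂ) (b' : ℕ → ℂ) (n : ℕ)
    (t : ℤ → K) : Prop where
  hn : 0 < n
  per : ∀ j, t (j + n) = t j
  ne : ∀ j, t j ≠ 0
  P0 : ∀ j, PP φ N a b (t j) (t (j + 1)) ≠ 0
  Q0 : ∀ j, QQ φ N a' b' (t j) (t (j + 1)) ≠ 0
  P1 : ∀ j, PP φ N a b (t j) (t j) ≠ 0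
  Q1 : ∀ j, QQ φ N a' b' (t j) (t j) ≠ 0
  law : ∀ j, QQ φ N a' b' (t (j - 1)) (t j) * QQ φ N a' b' (t j) (t (j + 1)) *
      PP φ N a b (t j) (t j) ^ 2 =
    PP φ N a b (t (j - 1)) (t j) * PP φ N a b (t j) (t (j + 1)) * QQ φ N a' b' (t j) (t j) ^ 2

variable {φ : ℂ →+* K} {N : ℕ} {a : ℂ} {b : ℕ → ℂ} {a' : ℂ} {b' : ℕ → ℂ} {n : ℕ} {t : ℤ → K}

lemma Chain.inv (H : Chain φ N a b a' b' n t) : Chain φ N a' b' a b n (fun j => (t j)⁻¹) where
  hn := H.hn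
  per j := by rw [H.per j]
  ne j := inv_ne_zero (H.ne j)
  P0 j := by
    rw [PP_inv _ _ _ _ (H.ne _) (H.ne _)]
    exact mul_ne_zero (mul_ne_zero (H.ne _) (H.ne _)) (H.Q0 j)
  Q0 j := by
    rw [QQ_inv _ _ _ _ (H.ne _) (H.ne _)]
    exact mul_ne_zero (mul_ne_zero (H.ne _) (H.ne _)) (H.P0 j)
  P1 j := by
    rw [PP_inv _ _ _ _ (H.ne _) (H.ne _)]
    exact mul_ne_zero (mul_ne_zero (H.ne _) (H.ne _)) (H.Q1 j)
  Q1 j := by
    rw [QQ_inv _ _ _ _ (H.ne _) (H.ne _)]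
    exact mul_ne_zero (mul_ne_zero (H.ne _) (H.ne _)) (H.P1 j)
  law j := by
    rw [PP_inv _ _ _ _ (H.ne _) (H.ne _), PP_inv _ _ _ _ (H.ne _) (H.ne _),
      PP_inv _ _ _ _ (H.ne _) (H.ne _), QQ_inv _ _ _ _ (H.ne _) (H.ne _),
      QQ_inv _ _ _ _ (H.ne _) (H.ne _), QQ_inv _ _ _ _ (H.ne _) (H.ne _)]
    linear_combination (-(t (j - 1) * t j * (t j * t (j + 1)) * (t j * t j) ^ 2)) * H.law j

lemma Chain.rev (H : Chain φ N a b a' b' n t) : Chain φ N a b a' b' n (fun j => t (-j)) where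
  hn := H.hn
  per j := by
    have := H.per (-(j + n))
    rw [show -(j + (n : ℤ)) + n = -j by ring] at this
    exact this.symm
  ne j := H.ne _
  P0 j := by
    rw [PP_comm, show -j = -(j + 1) + 1 by ring]
    exact H.P0 _
  Q0 j := by
    rw [QQ_comm, show -j = -(j + 1) + 1 by ring]
    exact H.Q0 _
  P1 j := H.P1 _
  Q1 j := H.Q1 _
  law j := by
    have := H.law (-j)
    rw [show -(j - 1) = -j + 1 by ring, show -(j + 1) = -j - 1 by ring,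
      QQ_comm _ _ _ _ (t (-j + 1)), QQ_comm _ _ _ _ (t (-j)) (t (-j - 1)),
      PP_comm _ _ _ _ (t (-j + 1)), PP_comm _ _ _ _ (t (-j)) (t (-j - 1))]
    linear_combination this

section val

variable {Γ₀ : Type*} [LinearOrderedCommGroupWithZero Γ₀] {w : Valuation K Γ₀}

lemma wphi_le (hφ : ∀ c : ℂ, c ≠ 0 → w (φ c) = 1) (c : ℂ) : w (φ c) ≤ 1 := by
  by_cases h : c = 0
  · rw [h, map_zero, map_zero]; exact zero_le
  · exact (hφ c h).le

/-- Size of the divided difference. -/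
lemma SS_le (hφ : ∀ c : ℂ, c ≠ 0 → w (φ c) = 1) (b : ℕ → ℂ) {x y : K} {M : Γ₀} (hM : 1 ≤ M)
    (hx : w x ≤ M) (hy : w y ≤ M) : w (SS φ N b x y) ≤ M ^ (N - 1) := by
  unfold SS
  refine Valuation.map_sum_le w fun k hk => ?_
  rw [map_mul]
  calc w (φ (b k)) * w (∑ i ∈ range k, x ^ i * y ^ (k - 1 - i)) ≤ 1 * M ^ (N - 1) := by
        refine mul_le_mul' (wphi_le hφ _) (Valuation.map_sum_le w fun i hi => ?_)
        rw [map_mul, map_pow, map_pow]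
        have hi' := mem_range.1 hi
        have hk' := mem_range.1 hk
        calc w x ^ i * w y ^ (k - 1 - i) ≤ M ^ i * M ^ (k - 1 - i) :=
              mul_le_mul' (pow_le_pow_left₀ zero_le hx _) (pow_le_pow_left₀ zero_le hy _)
          _ = M ^ (k - 1) := by rw [← pow_add]; congr 1; omega
          _ ≤ M ^ (N - 1) := pow_le_pow_right₀ hM (by omega)
    _ = M ^ (N - 1) := one_mul _

/-- Leading term of the divided difference. -/
lemma SS_lead (hφ : ∀ c : ℂ, c ≠ 0 → w (φ c) = 1) (hN : 2 ≤ N) (b : ℕ → ℂ) {x y : K} {M : Γ₀}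
    (hM : 1 < M) (hx : w x ≤ M) (hy : w y ≤ M) :
    w (SS φ N b x y - φ (b N) * ∑ i ∈ range N, x ^ i * y ^ (N - 1 - i)) < M ^ (N - 1) := by
  have h1 : SS φ N b x y - φ (b N) * ∑ i ∈ range N, x ^ i * y ^ (N - 1 - i) =
      SS φ (N - 1) b x y := by
    unfold SS
    rw [sum_range_succ, show N - 1 + 1 = N by omega]
    ring
  rw [h1]
  calc w (SS φ (N - 1) b x y) ≤ M ^ (N - 1 - 1) := SS_le hφ b hM.le hx hy
    _ < M ^ (N - 1) := by
        apply pow_lt_pow_right₀ hM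
        omega

/-- If one argument is strictly smaller than the other, the size is exactly known. -/
lemma SS_eq (hφ : ∀ c : ℂ, c ≠ 0 → w (φ c) = 1) (hN : 2 ≤ N) {b : ℕ → ℂ} (hb : b N ≠ 0)
    {x y : K} (hM : 1 < w y) (hx : w x < w y) : w (SS φ N b x y) = w y ^ (N - 1) := by
  have h0 := SS_lead (φ := φ) hφ hN b hM hx.le le_rfl
  have h1 : w (∑ i ∈ range N, x ^ i * y ^ (N - 1 - i)) = w y ^ (N - 1) := by
    obtain ⟨m, rfl⟩ : ∃ m, N = m + 1 := ⟨N - 1, by omega⟩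
    rw [sum_range_succ']
    rw [add_comm, Valuation.map_add_eq_of_lt_left]
    · simp
    · simp only [pow_zero, one_mul, Nat.sub_zero, map_pow]
      refine Valuation.map_sum_lt w ?_ fun i hi => ?_
      · exact pow_ne_zero _ (by rintro h; rw [h] at hM; exact absurd hM (not_lt.2 zero_le))
      · have hi' := mem_range.1 hi
        rw [map_mul, map_pow, map_pow]
        have hy0 : 0 < w y := lt_trans zero_lt_one hM
        calc w x ^ (i + 1) * w y ^ (m + 1 - 1 - (i + 1))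
            < w y ^ (i + 1) * w y ^ (m + 1 - 1 - (i + 1)) := by
              apply mul_lt_mul_of_pos_right
              · exact pow_lt_pow_left₀ hx zero_le (by omega)
              · exact pow_pos hy0 _
          _ = w y ^ (m + 1 - 1) := by rw [← pow_add]; congr 1; omega
  have h2 : w (φ (b N) * ∑ i ∈ range N, x ^ i * y ^ (N - 1 - i)) = w y ^ (N - 1) := by
    rw [map_mul, hφ _ hb, one_mul, h1]
  have h3 : SS φ N b x y = (SS φ N b x y - φ (b N) * ∑ i ∈ range N, x ^ i * y ^ (N - 1 - i)) +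
    φ (b N) * ∑ i ∈ range N, x ^ i * y ^ (N - 1 - i) := by ring
  rw [h3, Valuation.map_add_eq_of_lt_right]
  · exact h2
  · rw [h2]; exact h0

/-- `w P` near infinity. -/
lemma PP_lead (hφ : ∀ c : ℂ, c ≠ 0 → w (φ c) = 1) (hN : 2 ≤ N) (a : ℂ) (b : ℕ → ℂ) {x y : K}
    (hy : 1 < w y) (hx : 1 < w x ^ N * w y) : w (PP φ N a b x y - φ a) < 1 := by
  have hy0 : 0 < w y := lt_trans zero_lt_one hy
  have hx0 : 0 < w x := by
    rcases eq_or_ne (w x) 0 with h | h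
    · rw [h, zero_pow (by omega), zero_mul] at hx
      exact absurd hx (not_lt.2 zero_le)
    · exact zero_lt_iff.2 h
  have e : PP φ N a b x y - φ a = -(x⁻¹ * y⁻¹ * SS φ N b x⁻¹ y⁻¹) := by unfold PP; ring
  rw [e, Valuation.map_neg, map_mul, map_mul, map_inv₀, map_inv₀]
  have hyi : w y⁻¹ ≤ 1 := by rw [map_inv₀]; exact inv_le_one_of_one_le₀ hy.le
  rcases le_or_gt 1 (w x) with h1 | h1
  · have hxi : w x⁻¹ ≤ 1 := by rw [map_inv₀]; exact inv_le_one_of_one_le₀ h1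
    have h2 := SS_le (N := N) hφ b (le_refl (1 : Γ₀)) hxi hyi
    rw [one_pow] at h2
    calc (w x)⁻¹ * (w y)⁻¹ * w (SS φ N b x⁻¹ y⁻¹) ≤ 1 * (w y)⁻¹ * 1 := by
          gcongr
          exact inv_le_one_of_one_le₀ h1
      _ = (w y)⁻¹ := by rw [one_mul, mul_one]
      _ < 1 := inv_lt_one_of_one_lt₀ hy
  · have hxi : 1 ≤ (w x)⁻¹ := (one_le_inv₀ hx0).2 h1.le
    have h2 := SS_le (N := N) hφ b (M := (w x)⁻¹) hxi (by rw [map_inv₀])
      (hyi.trans hxi)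
    calc (w x)⁻¹ * (w y)⁻¹ * w (SS φ N b x⁻¹ y⁻¹) ≤ (w x)⁻¹ * (w y)⁻¹ * (w x)⁻¹ ^ (N - 1) := by
          gcongr
      _ = (w x ^ N * w y)⁻¹ := by
          obtain ⟨m, rfl⟩ : ∃ m, N = m + 1 := ⟨N - 1, by omega⟩
          rw [Nat.add_sub_cancel, mul_inv, inv_pow, pow_succ, mul_inv]
          ac_rfl
      _ < 1 := inv_lt_one_of_one_lt₀ hx

lemma wadd_eq {u v : K} {c : Γ₀} (h1 : w (u - v) < c) (h2 : w v = c) : w u = c := by
  have e : u = (u - v) + v := by ring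
  rw [e, Valuation.map_add_eq_of_lt_right]
  · exact h2
  · rw [h2]; exact h1

end val

end Pool.Agent.H719R3.BK
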